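import Pool.Agent.TH823.EL.FarConst
import Pool.Agent.TH823.EL.Small

set_option autoImplicit false

/-!
# Functions close to a constant on the primes
-/

open Finset MeasureTheory
open scoped Real

namespace Pool.Agent.TH823.EL

open Pool.Agent.TH823.PS Pool.Agent.W66 Pool.Agent.W66L

/-- a power of a unimodular number is close to `1` -/
lemma exists_pow {w : ℂ} (hw : ‖w‖ = 1) : ∃ m : ℕ, 1 ≤ m ∧ m ≤ 13 ∧ ‖w ^ m - 1‖ ≤ 1 / 2 := by
  set a : ℝ := Complex.arg w / (2 * π) with ha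
  have hwa : w = Complex.exp (Complex.I * ((2 * π * a : ℝ) : ℂ)) := by
    have h1 := Complex.norm_mul_exp_arg_mul_I w
    rw [hw, Complex.ofReal_one, one_mul] at h1
    have h2 : 2 * π * a = Complex.arg w := by rw [ha]; field_simp
    rw [h2, mul_comm]
    exact h1.symm
  obtain ⟨j, k, hk0, hk13, hjk⟩ := Real.exists_int_int_abs_mul_sub_le a (n := 13) (by norm_num)
  obtain ⟨m, rfl⟩ := Int.eq_ofNat_of_zero_le hk0.le
  refine ⟨m, by exact_mod_cast hk0, by exact_mod_cast hk13, ?_⟩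
  have h1 : w ^ m = Complex.exp (Complex.I * ((2 * π * (m * a - j) : ℝ) : ℂ)) := by
    rw [hwa, ← Complex.exp_nat_mul]
    have h2 : (m : ℂ) * (Complex.I * ((2 * π * a : ℝ) : ℂ)) =
        Complex.I * ((2 * π * (m * a - j) : ℝ) : ℂ) + j * (2 * π * Complex.I) := by
      push_cast; ring
    rw [h2, Complex.exp_add, Complex.exp_int_mul_two_pi_mul_I, mul_one]
  rw [h1]
  refine (Real.norm_exp_I_mul_ofReal_sub_one_le).trans ?_
  rw [Real.norm_eq_abs, abs_mul, abs_of_pos (by positivity : 0 < 2 * π)]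
  have h3 : |(m : ℝ) * a - j| ≤ 1 / 14 := by
    have := hjk
    push_cast at this
    refine this.trans (by norm_num)
  have h4 := Real.pi_lt_d2
  have h5 := mul_le_mul_of_nonneg_left h3 (by positivity : 0 ≤ 2 * π)
  linarith

lemma lq_bound {Q q : ℕ} (hQ : 14 ≤ Q) (hq0 : 0 < q) (hq : q ≤ Q) {t : ℝ} (ht : |t| ≤ (Q : ℝ) ^ 4) {m : ℕ}
    (hm : m ≤ 13) : lq q (m * t) ≤ Real.log ((Q ^ 6 : ℕ) : ℝ) := by
  have hQr : (14 : ℝ) ≤ Q := by exact_mod_cast hQ
  have hQ0 : (0 : ℝ) < Q := by linarith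
  have h1 : Real.log q ≤ Real.log Q := Real.log_le_log (by exact_mod_cast hq0) (by exact_mod_cast hq)
  have h2 : |(m : ℝ) * t| + 3 ≤ (Q : ℝ) ^ 5 := by
    rw [abs_mul, Nat.abs_cast]
    have h3 : (m : ℝ) ≤ 13 := by exact_mod_cast hm
    have h4 : (m : ℝ) * |t| ≤ 13 * (Q : ℝ) ^ 4 := mul_le_mul h3 ht (abs_nonneg _) (by norm_num)
    have h5 : 14 * (Q : ℝ) ^ 4 ≤ Q * (Q : ℝ) ^ 4 := mul_le_mul_of_nonneg_right hQr (by positivity)
    have h6 : (3 : ℝ) ≤ (Q : ℝ) ^ 4 := by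
      have : (14 : ℝ) ^ 4 ≤ (Q : ℝ) ^ 4 := pow_le_pow_left₀ (by norm_num) hQr 4
      linarith
    have h7 : (Q : ℝ) ^ 5 = Q * (Q : ℝ) ^ 4 := by ring
    linarith
  have h3 : ell (m * t) ≤ 5 * Real.log Q := by
    unfold ell
    have h4 : Real.log (|(m : ℝ) * t| + 3) ≤ Real.log ((Q : ℝ) ^ 5) :=
      Real.log_le_log (by positivity) h2
    rw [Real.log_pow] at h4
    exact_mod_cast h4
  unfold lq
  push_cast
  rw [Real.log_pow]
  push_cast
  linarith

lemma W_large (K : ℝ) : ∃ E0 : ℕ, 1 ≤ E0 ∧ ∀ E : ℕ, E0 ≤ E → ∀ Q : ℕ, 3 ≤ Q →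
    K ≤ WP (PP (Q ^ 6) (Q ^ (6 * E))) := by
  obtain ⟨CW, hCW, hW⟩ := WW_est
  obtain ⟨E0, hE0⟩ := exists_nat_ge (Real.exp (K + CW))
  refine ⟨E0 + 1, by omega, fun E hE Q hQ => ?_⟩
  have h1 := (abs_le.1 (hW Q 6 (6 * E) hQ (by omega) (by omega))).1
  have h2 : Real.log (((6 * E : ℕ) : ℝ) / (6 : ℕ)) = Real.log E := by
    congr 1; push_cast; field_simp
  rw [h2] at h1
  have hE1 : (0 : ℝ) < E := by exact_mod_cast (by omega : 0 < E)
  have h3 : K + CW ≤ Real.log E := by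
    rw [Real.le_log_iff_exp_le hE1]
    refine hE0.trans ?_
    exact_mod_cast (by omega : E0 ≤ E)
  rw [WP_eq]
  linarith

/-- functions close to a constant other than `1` and `-1` -/
theorem npw_near (c : ℝ) (hc : 0 < c) (hc1 : c ≤ 1 / 338) : ∃ E0 : ℕ, ∀ E : ℕ, E0 ≤ E → ∀ Q : ℕ, 14 ≤ Q →
    ∀ w0 : ℂ, (‖w0‖ = 1 ∧ |w0.re| ≤ 1 - c) ∨ ‖w0‖ ≤ 1 - c → ∀ w : ℕ → ℂ,
    ∑ p ∈ PP (Q ^ 6) (Q ^ (6 * E)), ‖w p - w0‖ / p ≤ c / 4 * WP (PP (Q ^ 6) (Q ^ (6 * E))) →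
    NPW (c / 4) Q (Q ^ 6) (Q ^ (6 * E)) w := by
  obtain ⟨C, hC, hfar⟩ := far_unit
  obtain ⟨E0, hE0, hW⟩ := W_large (2 * C / c)
  refine ⟨E0, fun E hE Q hQ w0 hw0 w hw q _ hq χ t ht => ?_⟩
  have hWb := hW E hE Q (by omega)
  set y := Q ^ 6 with hy
  set z := Q ^ (6 * E) with hz
  have hW0 : 0 ≤ WP (PP y z) := WP_nonneg _
  have hyz : y ≤ z := Nat.pow_le_pow_right (by omega) (by omega)
  have hQy : Q ≤ y := Nat.le_self_pow (by omega) Q
  have hq0 : 0 < q := Nat.pos_of_ne_zero (NeZero.ne q)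
  have hC2 : C ≤ c / 2 * WP (PP y z) := by
    rw [div_le_iff₀ hc] at hWb
    linarith
  -- the constant function
  have hconst : ∑ p ∈ PP y z, (w0 * ct χ t p).re / p ≤ (1 - c) * WP (PP y z) + C := by
    rcases hw0 with ⟨hw1, hwre⟩ | hw1
    · obtain ⟨m, hm1, hm13, hwm⟩ := exists_pow hw1
      have hm13r : (m : ℝ) ≤ 13 := by exact_mod_cast hm13
      have hm1r : (1 : ℝ) ≤ m := by exact_mod_cast hm1
      have hcm : c ≤ 1 / (2 * (m : ℝ) ^ 2) := by
        refine hc1.trans ?_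
        apply one_div_le_one_div_of_le (by positivity)
        have : (m : ℝ) ^ 2 ≤ 13 ^ 2 := pow_le_pow_left₀ (by linarith) hm13r 2
        linarith
      have := hfar w0 hw1 c hc.le hwre m hm1 hwm hcm q y z (by omega) hyz (hq.trans hQy) t
        (lq_bound hQ hq0 hq ht hm13) χ
      rw [WP_eq]
      exact this
    · have h1 : ∑ p ∈ PP y z, (w0 * ct χ t p).re / p ≤ (1 - c) * WP (PP y z) := by
        unfold WP
        rw [mul_sum]
        apply sum_le_sum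
        intro p _
        rw [mul_one_div]
        apply div_le_div_of_nonneg_right _ (Nat.cast_nonneg p)
        refine (Complex.re_le_norm _).trans ?_
        rw [norm_mul]
        calc ‖w0‖ * ‖ct χ t p‖ ≤ (1 - c) * 1 :=
              mul_le_mul hw1 (norm_ct_le χ t p) (norm_nonneg _) (by linarith)
          _ = 1 - c := mul_one _
      linarith
  have hdiff : ∑ p ∈ PP y z, (w p * χ (p : ZMod q) * Complex.exp (-(((t * Real.log p : ℝ) : ℂ) * Complex.I))).re / p ≤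
      ∑ p ∈ PP y z, (w0 * ct χ t p).re / p + ∑ p ∈ PP y z, ‖w p - w0‖ / p := by
    rw [← sum_add_distrib]
    apply sum_le_sum
    intro p _
    rw [← add_div]
    apply div_le_div_of_nonneg_right _ (Nat.cast_nonneg p)
    have e1 : w p * χ (p : ZMod q) * Complex.exp (-(((t * Real.log p : ℝ) : ℂ) * Complex.I)) =
        w0 * ct χ t p + (w p - w0) * ct χ t p := by unfold ct; ring
    rw [e1, Complex.add_re]
    have h1 : ((w p - w0) * ct χ t p).re ≤ ‖w p - w0‖ := by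
      refine (Complex.re_le_norm _).trans ?_
      rw [norm_mul]
      exact mul_le_of_le_one_right (norm_nonneg _) (norm_ct_le χ t p)
    linarith
  linarith

/-- functions close to `-1`, no exceptional character -/
theorem npw_neg : ∃ E0 : ℕ, ∀ E : ℕ, E0 ≤ E → ∀ Q : ℕ, 14 ≤ Q → NE 6 E Q → ∀ w : ℕ → ℂ,
    ∑ p ∈ PP (Q ^ 6) (Q ^ (6 * E)), ‖w p + 1‖ / p ≤ 1 / 40 * WP (PP (Q ^ 6) (Q ^ (6 * E))) →
    NPW (1 / 40) Q (Q ^ 6) (Q ^ (6 * E)) w := by
  obtain ⟨C, hC, hfar⟩ := lower_all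
  obtain ⟨E0, hE0, hW⟩ := W_large (20 * C)
  refine ⟨E0, fun E hE Q hQ hNE w hw q _ hq χ t ht => ?_⟩
  have hWb := hW E hE Q (by omega)
  set y := Q ^ 6 with hy
  set z := Q ^ (6 * E) with hz
  have hW0 : 0 ≤ WP (PP y z) := WP_nonneg _
  have hyz : y ≤ z := Nat.pow_le_pow_right (by omega) (by omega)
  have hQy : Q ≤ y := Nat.le_self_pow (by omega) Q
  have hq0 : 0 < q := Nat.pos_of_ne_zero (NeZero.ne q)
  have hlow := hfar q y z (by omega) hyz (hq.trans hQy) (fun χ' h1 h2 => hNE q hq χ' h1 h2) t (by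
    have := lq_bound hQ hq0 hq ht (m := 2) (by norm_num)
    exact_mod_cast this) χ
  rw [← WP_eq] at hlow
  have hdiff : ∑ p ∈ PP y z, (w p * χ (p : ZMod q) * Complex.exp (-(((t * Real.log p : ℝ) : ℂ) * Complex.I))).re / p ≤
      -∑ p ∈ PP y z, rt χ t p / p + ∑ p ∈ PP y z, ‖w p + 1‖ / p := by
    rw [← sum_neg_distrib, ← sum_add_distrib]
    apply sum_le_sum
    intro p _
    rw [← neg_div, ← add_div]
    apply div_le_div_of_nonneg_right _ (Nat.cast_nonneg p)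
    have e1 : w p * χ (p : ZMod q) * Complex.exp (-(((t * Real.log p : ℝ) : ℂ) * Complex.I)) =
        -ct χ t p + (w p + 1) * ct χ t p := by unfold ct; ring
    rw [e1, Complex.add_re, Complex.neg_re]
    have h1 : ((w p + 1) * ct χ t p).re ≤ ‖w p + 1‖ := by
      refine (Complex.re_le_norm _).trans ?_
      rw [norm_mul]
      exact mul_le_of_le_one_right (norm_nonneg _) (norm_ct_le χ t p)
    unfold rt
    linarith
  linarith

end Pool.Agent.TH823.EL
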