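import Pool.Agent.TH823.EL.Minor
import Pool.Agent.TH823.PS.Arcs2

set_option autoImplicit false

/-!
# The sum of the squares of an exponential sum over a set of frequencies
-/

open Finset MeasureTheory
open scoped Real
open Pool.Agent.Helper112 Pool.Agent.W66 Pool.Agent.W66L

namespace Pool.Agent.TH823.EL

open Pool.Agent.TH823.PS

open Classical in
/-- **the sum over a set of frequencies** -/
theorem arcs_m {f : ℕ → ℂ} (hf : ∀ n, ‖f n‖ ≤ 1) {R : ℝ} {Q X Y z N : ℕ} (hYX : Y ≤ X) (hz : 1 ≤ z) (hzX : z ≤ Y) (hXN : Y ≤ N) (hQ : 1 ≤ Q)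
    {h : ℝ} (h0 : 0 < h) (h1 : h ≤ 1) (K : Finset ℕ) (hK : K ⊆ range X)
    (hminor : ∑ k ∈ K.filter (fun k : ℕ => ¬ ∃ (q : ℕ) (c : ℤ), Pool.Agent.W93.LM.MajAt Y Q ((k : ℝ) / X) q c),
      ‖∑ n ∈ Icc 1 Y, f n * ee (n * ((k : ℝ) / X))‖ ^ 2 ≤ R) :
    ∑ k ∈ K, ‖∑ n ∈ Icc 1 Y, f n * ee (n * ((k : ℝ) / X))‖ ^ 2 ≤
      R + 2 * K.card * (z + 4 + 18 * h * Y + 4 * π * h * Q * Y) ^ 2 +
      2 * (X * ∫ x in Set.Iic (Real.log Y), Real.exp x * EE h Q (Ioc z N) (fun n => f n / n) x) := by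
  have hY : 0 < Y := by omega
  have hX : 0 < X := by omega
  have hY0 : (0 : ℝ) < Y := by exact_mod_cast hY
  have hX0 : (0 : ℝ) < X := by exact_mod_cast hX
  have hQ0 : (0 : ℝ) < Q := by exact_mod_cast (by omega : 0 < Q)
  set Maj : ℕ → Prop := fun k => ∃ (q : ℕ) (c : ℤ), Pool.Agent.W93.LM.MajAt Y Q ((k : ℝ) / X) q c with hMaj
  have hex : ∀ k : ℕ, ∃ (q : ℕ) (c : ℤ), Maj k → Pool.Agent.W93.LM.MajAt Y Q ((k : ℝ) / X) q c := by
    intro k
    by_cases hk : Maj k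
    · obtain ⟨q, c, hqc⟩ := hk
      exact ⟨q, c, fun _ => hqc⟩
    · exact ⟨0, 0, fun h' => absurd h' hk⟩
  choose qf cf hqc using hex
  set KM := K.filter Maj with hKM
  set Km := K.filter (fun k => ¬ Maj k) with hKm
  have hsplit : ∑ k ∈ K, ‖∑ n ∈ Icc 1 Y, f n * ee (n * ((k : ℝ) / X))‖ ^ 2 =
      ∑ k ∈ KM, ‖∑ n ∈ Icc 1 Y, f n * ee (n * ((k : ℝ) / X))‖ ^ 2 +
      ∑ k ∈ Km, ‖∑ n ∈ Icc 1 Y, f n * ee (n * ((k : ℝ) / X))‖ ^ 2 :=
    (sum_filter_add_sum_filter_not K Maj _).symm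
  -- major arcs
  set Er : ℝ := z + 4 + 18 * h * Y + 4 * π * h * Q * Y with hEr
  set af : ℕ → ℕ := fun k => (cf k % (qf k : ℤ)).toNat with haf
  set mf : ℕ → ℤ := fun k => cf k / (qf k : ℤ) with hmf
  set βf : ℕ → ℝ := fun k => (k : ℝ) / X - (cf k : ℝ) / qf k with hβf
  set qa : ℕ → (_ : ℕ) × ℕ := fun k => ⟨qf k, af k⟩ with hqa
  have hbase : ∀ k ∈ KM, 1 ≤ qf k ∧ qf k ≤ Q ∧ af k ∈ rr (qf k) ∧ (cf k : ℤ) = af k + qf k * mf k ∧
      |βf k| ≤ Q / Y := by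
    intro k hk
    rw [hKM, mem_filter] at hk
    obtain ⟨g1, g2, g3, g4⟩ := hqc k hk.2
    have hq0 : (0 : ℤ) < qf k := by exact_mod_cast (by omega : 0 < qf k)
    have hm0 : 0 ≤ cf k % (qf k : ℤ) := Int.emod_nonneg _ hq0.ne'
    have hcast : ((af k : ℕ) : ℤ) = cf k % (qf k : ℤ) := by
      rw [haf]; exact Int.toNat_of_nonneg hm0
    refine ⟨g1, g3, ?_, ?_, ?_⟩
    · unfold rr
      rw [mem_filter, mem_range]
      constructor
      · have := Int.emod_lt_of_pos (cf k) hq0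
        rw [← hcast] at this
        exact_mod_cast this
      · rw [← Nat.isCoprime_iff_coprime, hcast]
        obtain ⟨u, v, huv⟩ := g2
        refine ⟨u, v + u * (cf k / (qf k : ℤ)), ?_⟩
        have h5 := Int.emod_add_mul_ediv (cf k) (qf k : ℤ)
        calc u * (cf k % (qf k : ℤ)) + (v + u * (cf k / (qf k : ℤ))) * (qf k : ℤ) =
            u * (cf k % (qf k : ℤ) + (qf k : ℤ) * (cf k / (qf k : ℤ))) + v * (qf k : ℤ) := by ring
          _ = 1 := by rw [h5]; exact huv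
    · rw [hcast, hmf]
      exact (Int.emod_add_mul_ediv (cf k) (qf k : ℤ)).symm
    · rw [le_div_iff₀ hY0]
      have h5 : (1 : ℝ) ≤ qf k := by exact_mod_cast g1
      have h6 : 0 ≤ Y * |βf k| := by positivity
      have h7 : Y * |βf k| ≤ qf k * (Y * |βf k|) := le_mul_of_one_le_left h6 h5
      have h8 : (qf k : ℝ) * (Y * |βf k|) ≤ Q := g4
      linarith
  have hcr : ∀ k ∈ KM, (cf k : ℝ) / qf k = (af k : ℝ) / qf k + mf k := by
    intro k hk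
    obtain ⟨g1, _, _, g4, _⟩ := hbase k hk
    have hq0 : (0 : ℝ) < qf k := by exact_mod_cast (by omega : 0 < qf k)
    have : (cf k : ℝ) = af k + qf k * mf k := by exact_mod_cast g4
    rw [this]; field_simp
  have hnear : ∀ k ∈ KM, ‖∑ n ∈ Icc 1 Y, f n * ee (n * ((k : ℝ) / X)) -
      WI h (Real.log Y) (βf k) (Ioc z N) (fun n => f n / n * ee (n * (qa k).2 / (qa k).1))‖ ≤ Er := by
    intro k hk
    obtain ⟨g1, g2, g3, g4, g5⟩ := hbase k hk
    have h2 := sum_near hf hz hzX hXN h0 h1 (β := βf k) ((af k : ℝ) / qf k) _ rfl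
    have e2 : ∑ n ∈ Icc 1 Y, f n * ee (n * ((k : ℝ) / X)) =
        ∑ n ∈ Icc 1 Y, f n * ee (n * ((af k : ℝ) / qf k + βf k)) := by
      apply sum_congr rfl
      intro n _
      congr 1
      have h3 : (n : ℝ) * ((k : ℝ) / X) = n * ((af k : ℝ) / qf k + βf k) + ((n * mf k : ℤ) : ℝ) := by
        have h4 : βf k = (k : ℝ) / X - (cf k : ℝ) / qf k := rfl
        rw [h4, hcr k hk]
        push_cast; ring
      rw [h3, ee_add', ee_int', mul_one]
    have e3 : (fun n : ℕ => f n / n * ee (n * ((af k : ℝ) / qf k))) =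
        (fun n : ℕ => f n / n * ee (n * (qa k).2 / (qa k).1)) := by
      ext n
      rw [hqa]
      simp only
      rw [mul_div_assoc]
    rw [e2, ← e3]
    refine h2.trans ?_
    rw [hEr]
    have h5 : 4 * π * h * |βf k| * (Y : ℝ) ^ 2 ≤ 4 * π * h * Q * Y := by
      have h6 : |βf k| * (Y : ℝ) ^ 2 ≤ Q * Y := by
        have := mul_le_mul_of_nonneg_right g5 (by positivity : 0 ≤ (Y : ℝ) ^ 2)
        refine this.trans (le_of_eq ?_)
        field_simp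
      have h7 := mul_le_mul_of_nonneg_left h6 (by positivity : 0 ≤ 4 * π * h)
      linarith
    linarith
  have hgrp := group_ineq' KM qa βf (F := Q) hX (s := Real.log Y)
    (Real.log_le_log hY0 (by exact_mod_cast hYX)) (by
      intro k hk
      obtain ⟨g1, g2, g3, _, _⟩ := hbase k hk
      rw [hqa, mem_sigma, mem_Icc]
      exact ⟨⟨g1, g2⟩, g3⟩) (by
      intro k hk l hl hkl hq
      have hq1 : qf k = qf l := congrArg Sigma.fst hq
      have hq2 : af k = af l := by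
        have : (qa k).2 = (qa l).2 := by rw [hq]
        exact this
      have hkX := mem_range.1 (hK (mem_filter.1 hk).1)
      have hlX := mem_range.1 (hK (mem_filter.1 hl).1)
      refine ⟨(k : ℤ) - l - X * (mf k - mf l), ?_, ?_⟩
      · intro h2
        have h3 : (k : ℤ) - l = X * (mf k - mf l) := by linarith
        have h4 : (X : ℤ) ∣ (k : ℤ) - l := ⟨_, h3⟩
        have h5 : |(k : ℤ) - l| < X := by rw [abs_lt]; constructor <;> omega
        have h6 := Int.eq_zero_of_abs_lt_dvd h4 h5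
        omega
      · have h4 : βf k = (k : ℝ) / X - (cf k : ℝ) / qf k := rfl
        have h5 : βf l = (l : ℝ) / X - (cf l : ℝ) / qf l := rfl
        rw [h4, h5, hcr k hk, hcr l hl, hq1, hq2]
        push_cast
        field_simp
        ring) h0 (Ioc z N) (fun n => f n / n)
  have hmajor : ∑ k ∈ KM, ‖∑ n ∈ Icc 1 Y, f n * ee (n * ((k : ℝ) / X))‖ ^ 2 ≤
      2 * K.card * Er ^ 2 +
      2 * (X * ∫ x in Set.Iic (Real.log Y), Real.exp x * EE h Q (Ioc z N) (fun n => f n / n) x) := by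
    have h2 : ∀ k ∈ KM, ‖∑ n ∈ Icc 1 Y, f n * ee (n * ((k : ℝ) / X))‖ ^ 2 ≤ 2 * Er ^ 2 +
        2 * ‖WI h (Real.log Y) (βf k) (Ioc z N) (fun n => f n / n * ee (n * (qa k).2 / (qa k).1))‖ ^ 2 := by
      intro k hk
      set u := ∑ n ∈ Icc 1 Y, f n * ee (n * ((k : ℝ) / X))
      set v := WI h (Real.log Y) (βf k) (Ioc z N) (fun n => f n / n * ee (n * (qa k).2 / (qa k).1))
      have h3 : ‖u‖ ≤ ‖u - v‖ + ‖v‖ := by
        have := norm_add_le (u - v) v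
        rwa [sub_add_cancel] at this
      have h4 : ‖u - v‖ ≤ Er := hnear k hk
      have h5 : ‖u‖ ≤ Er + ‖v‖ := by linarith
      have h6 := pow_le_pow_left₀ (norm_nonneg _) h5 2
      nlinarith [sq_nonneg (Er - ‖v‖)]
    refine (sum_le_sum h2).trans ?_
    rw [sum_add_distrib, sum_const, nsmul_eq_mul, ← mul_sum]
    apply add_le_add
    · have h3 : (KM.card : ℝ) ≤ K.card := by exact_mod_cast card_filter_le _ _
      have h4 := mul_le_mul_of_nonneg_right h3 (by positivity : 0 ≤ 2 * Er ^ 2)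
      linarith
    · exact mul_le_mul_of_nonneg_left hgrp (by norm_num)
  rw [hsplit]
  linarith

/-- `W f = conv + k gco` -/
lemma conv_gco {P : Finset ℕ} (hP : ∀ p ∈ P, 0 < p) (W : ℝ) (w f : ℕ → ℂ) {Y k : ℕ} (hk : k ∈ Icc 1 Y) :
    (W : ℂ) * f k = conv P w f k + k * gco W P (fun p => w p / p) (Ioc 0 Y) (fun n => f n / n) k := by
  rw [mem_Icc] at hk
  have hk0 : (k : ℂ) ≠ 0 := by
    have : k ≠ 0 := by omega
    exact_mod_cast this
  unfold gco conv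
  rw [if_pos (by rw [mem_Ioc]; omega), mul_sub, mul_sum]
  have e1 : (k : ℂ) * ((W : ℂ) * (f k / k)) = W * f k := by field_simp
  rw [e1]
  have e2 : ∀ p ∈ P, (k : ℂ) * (if p ∣ k ∧ k / p ∈ Ioc 0 Y then w p / p * (f (k / p) / ((k / p : ℕ) : ℂ)) else 0) =
      if p ∣ k then w p * f (k / p) else 0 := by
    intro p hp
    have hp0 := hP p hp
    by_cases h : p ∣ k
    · obtain ⟨m, rfl⟩ := h
      rw [Nat.mul_div_cancel_left _ hp0]
      have hm : 0 < m := Nat.pos_of_ne_zero (by rintro rfl; simp at hk)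
      have hmY : m ≤ Y := (Nat.le_mul_of_pos_left m hp0).trans hk.2
      rw [if_pos ⟨dvd_mul_right _ _, by rw [mem_Ioc]; omega⟩, if_pos (dvd_mul_right _ _)]
      have hp1 : (p : ℂ) ≠ 0 := by exact_mod_cast hp0.ne'
      have hm1 : (m : ℂ) ≠ 0 := by exact_mod_cast hm.ne'
      push_cast
      field_simp
    · rw [if_neg (fun h' => h h'.1), if_neg h, mul_zero]
  rw [sum_congr rfl e2]
  ring

/-- **the minor arcs** -/
theorem minor_sum {f w : ℕ → ℂ} {τ : ℝ} {Q D b X Y : ℕ} (hQ : 1 ≤ Q) (hb : 6 ≤ b) (hbD : b ≤ D)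
    (hf : Win (Q ^ 6) (Q ^ D) τ w f) (hτ : 0 ≤ τ) (hτ1 : τ ≤ 1)
    (hY : Q ^ (D + 1) ≤ Y) (hYX : Y ≤ X) (hlog : 1 ≤ Real.log Y)
    (hW : 0 < WP (PP (Q ^ b) (Q ^ D)))
    (K : Finset ℕ) (hK : K ⊆ range X)
    (hmin : ∀ k ∈ K, ¬ ∃ (q : ℕ) (c : ℤ), Pool.Agent.W93.LM.MajAt Y Q ((k : ℝ) / X) q c) :
    ∑ k ∈ K, ‖∑ n ∈ Icc 1 Y, f n * ee (n * ((k : ℝ) / X))‖ ^ 2 ≤
      2 / WP (PP (Q ^ b) (Q ^ D)) ^ 2 * (K.card * (100 * Real.log Y ^ 3 * Y / √(Q : ℝ)) ^ 2 +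
        X * ((48 * WP (PP (Q ^ b) (Q ^ D)) + 32 + 4 * (τ * WP (PP (Q ^ b) (Q ^ D))) ^ 2) * Y)) := by
  set P := PP (Q ^ b) (Q ^ D) with hPd
  set W := WP P with hWd
  have hPpos : ∀ p ∈ P, 0 < p := fun p hp => (mem_PP.1 hp).2.pos
  have hQD : Q ^ D ≤ Y := (Nat.pow_le_pow_right (by omega) (by omega)).trans hY
  have hQD0 : 0 < Q ^ D := by positivity
  have hY0 : 0 < Y := by omega
  have hX0 : 0 < X := by omega
  set u : ℕ → ℂ := gco W P (fun p => w p / p) (Ioc 0 Y) (fun n => f n / n) with hu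
  have hgs := gco_sum_sq (M := 0) (N := Y) (X := Y) (y' := Q ^ b) (z' := Q ^ D) hf hτ hτ1
    (Nat.pow_le_pow_right (by omega) hb) le_rfl hQD0 le_rfl hQD
  rw [← hPd, ← hWd, ← hu] at hgs
  -- the identity
  have hid : ∀ k : ℕ, (W : ℂ) * ∑ n ∈ Icc 1 Y, f n * ee (n * ((k : ℝ) / X)) =
      ∑ n ∈ Icc 1 Y, conv P w f n * ee (n * ((k : ℝ) / X)) +
      ∑ n ∈ Icc 1 Y, (n * u n) * ee (n * ((k : ℝ) / X)) := by
    intro k
    rw [mul_sum, ← sum_add_distrib]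
    apply sum_congr rfl
    intro n hn
    rw [← mul_assoc, conv_gco hPpos W w f hn, add_mul]
  have hpt : ∀ k ∈ K, ‖∑ n ∈ Icc 1 Y, f n * ee (n * ((k : ℝ) / X))‖ ^ 2 ≤
      2 / W ^ 2 * ((100 * Real.log Y ^ 3 * Y / √(Q : ℝ)) ^ 2 +
        ‖∑ n ∈ Icc 1 Y, (n * u n) * ee (n * ((k : ℝ) / X))‖ ^ 2) := by
    intro k hk
    set A := ∑ n ∈ Icc 1 Y, f n * ee (n * ((k : ℝ) / X)) with hA
    set B := ∑ n ∈ Icc 1 Y, conv P w f n * ee (n * ((k : ℝ) / X)) with hB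
    set U := ∑ n ∈ Icc 1 Y, (n * u n) * ee (n * ((k : ℝ) / X)) with hU
    have h1 : W * ‖A‖ ≤ ‖B‖ + ‖U‖ := by
      have h2 := hid k
      rw [← hA, ← hB, ← hU] at h2
      have h3 := norm_add_le B U
      rw [← h2, norm_mul, Complex.norm_real, Real.norm_of_nonneg hW.le] at h3
      exact h3
    have hBb : ‖B‖ ≤ 100 * Real.log Y ^ 3 * Y / √(Q : ℝ) := by
      have hQQ : Q * Q ≤ Y := by
        have h2 : Q * Q = Q ^ 2 := by ring
        rw [h2]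
        exact (Nat.pow_le_pow_right (by omega) (by omega)).trans hY
      obtain ⟨q, c, hq1, hqc, hor⟩ := Pool.Agent.W93.DG.diri Y Q hQ hQQ ((k : ℝ) / X)
      rcases hor with h2 | h2
      · exact absurd ⟨q, c, hq1, hqc, h2.1, h2.2⟩ (hmin k hk)
      · refine bilin_minor hQ h2.1 h2.2.1 hqc h2.2.2 (Nat.le_self_pow (by omega) Q) ?_ hlog w f hf.wd hf.bd
        rw [← pow_succ]
        exact hY
    have h4 : (W * ‖A‖) ^ 2 ≤ 2 * ((100 * Real.log Y ^ 3 * Y / √(Q : ℝ)) ^ 2 + ‖U‖ ^ 2) := by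
      have h5 : (W * ‖A‖) ^ 2 ≤ (‖B‖ + ‖U‖) ^ 2 := pow_le_pow_left₀ (by positivity) h1 2
      have h6 : ‖B‖ ^ 2 ≤ (100 * Real.log Y ^ 3 * Y / √(Q : ℝ)) ^ 2 := pow_le_pow_left₀ (norm_nonneg _) hBb 2
      nlinarith [sq_nonneg (‖B‖ - ‖U‖)]
    rw [div_mul_eq_mul_div, le_div_iff₀ (by positivity)]
    rw [mul_pow] at h4
    linarith
  refine (sum_le_sum hpt).trans ?_
  rw [← mul_sum, sum_add_distrib, sum_const, nsmul_eq_mul]
  apply mul_le_mul_of_nonneg_left _ (by positivity)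
  apply add_le_add le_rfl
  have h1 : ∑ k ∈ K, ‖∑ n ∈ Icc 1 Y, (n * u n) * ee (n * ((k : ℝ) / X))‖ ^ 2 ≤
      ∑ k ∈ range X, ‖∑ n ∈ Icc 1 Y, (n * u n) * ee (n * ((k : ℝ) / X))‖ ^ 2 :=
    sum_le_sum_of_subset_of_nonneg hK fun _ _ _ => by positivity
  refine h1.trans ?_
  rw [parseval hX0 (A := Icc 1 Y) (Icc_subset_Icc_right hYX) (fun n => n * u n)]
  apply mul_le_mul_of_nonneg_left _ (by positivity)
  have h3 : ∑ m ∈ Icc 1 Y, ‖(m : ℂ) * u m‖ ^ 2 = ∑ m ∈ Icc 1 Y, ((m : ℝ) * ‖u m‖) ^ 2 := by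
    apply sum_congr rfl
    intro m _
    rw [norm_mul, Complex.norm_natCast]
  rw [h3]
  refine hgs.trans (le_of_eq ?_)
  push_cast
  ring

end Pool.Agent.TH823.EL
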