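import Pool.Agent.TH823.EL.Small
import Pool.Agent.TH823.EL.Engine2

set_option autoImplicit false

/-!
# The energy at every scale, combined
-/

open Finset MeasureTheory
open scoped Real
open Pool.Agent.Helper112

namespace Pool.Agent.TH823.EL

open Pool.Agent.TH823.PS Pool.Agent.W66 Pool.Agent.W66L

lemma Win.mono {y z y' z' : ℕ} {τ : ℝ} {w f : ℕ → ℂ} (h : Win y z τ w f) (hy : y ≤ y') (hz : z' ≤ z) :
    Win y' z' τ w f :=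
  ⟨h.bd, h.wd, fun p n hp h1 h2 h3 => h.mul p n hp (lt_of_le_of_lt hy h1) (h2.trans hz) h3⟩

/-- the energy of `f` up to every scale between `Q ^ (2 D - 1)` and `Q ^ (3 D)` is small -/
theorem every (E00 : ℕ) (c κ : ℝ) (hc : 0 < c) (hc1 : c ≤ 1) (hκ : 0 < κ) (hκ1 : κ ≤ 1) :
    ∃ τ1 : ℝ, 0 < τ1 ∧ τ1 ≤ 1 ∧ ∃ E b D : ℕ, E00 < E ∧ 6 ≤ b ∧ b ≤ D ∧ 6 * E + 2 ≤ D ∧ ∃ Q0 : ℕ, 3 ≤ Q0 ∧
    ∀ Q : ℕ, Q0 ≤ Q → 1 / κ ≤ WP (PP (Q ^ b) (Q ^ D)) ∧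
    ∀ (w f : ℕ → ℂ) (τ : ℝ), 0 ≤ τ → τ ≤ τ1 → Win (Q ^ 6) (Q ^ D) τ w f →
    NPW c Q (Q ^ 6) (Q ^ (6 * E)) w →
    ∀ s : ℝ, ((2 * D - 1 : ℕ) : ℝ) * Real.log Q ≤ s → s ≤ ((3 * D : ℕ) : ℝ) * Real.log Q - 1 →
    ∫ x in Set.Iic s, Real.exp x *
      EE (1 / (Q : ℝ) ^ 3) Q (Ioc (Q ^ (6 * E)) (Q ^ (3 * D))) (fun n => f n / n) x ≤ κ * Real.exp s := by
  obtain ⟨CW, hCW, hW⟩ := WW_est
  obtain ⟨τ1, hτ1, E0, hen⟩ := engine κ hκ hκ1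
  obtain ⟨E2, hE2⟩ := exists_nat_ge (Real.exp (1 / κ + CW))
  obtain ⟨E', hE'0, hE'1, hE'2⟩ : ∃ E' : ℕ, E0 ≤ E' ∧ E2 ≤ E' ∧ 1 ≤ E' := ⟨E0 + E2 + 1, by omega, by omega, by omega⟩
  have hE'r : (1 : ℝ) ≤ E' := by exact_mod_cast hE'2
  obtain ⟨τ0, hτ0, E1, hsm⟩ := energy_small c (κ / (36 * E')) hc hc1 (by positivity)
  obtain ⟨B1, hB1⟩ := hsm (E1 + E00 + 1) (by omega)
  set E := E1 + E00 + 1 with hE
  set b := 6 * E + B1 + 8 with hb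
  have hbD : b ≤ b * E' := Nat.le_mul_of_pos_right b hE'2
  have h3D : b * E' ≤ 3 * (b * E') := by omega
  obtain ⟨Q1, hQ1⟩ := hB1 (3 * (b * E')) (by omega)
  obtain ⟨Q2, hQ2⟩ := hen E' hE'0 b E (by omega) (by omega) (by omega)
  refine ⟨min 1 (min τ0 τ1), by positivity, min_le_left _ _, E, b, b * E', by omega, by omega, hbD, by omega,
    Q1 + Q2 + 3, by omega, fun Q hQ => ⟨?_, fun w f τ hτ hττ hf hnp s hs1 hs2 => ?_⟩⟩
  · have hW1 := (abs_le.1 (hW Q b (b * E') (by omega) (by omega) hbD)).1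
    have hbr : (0 : ℝ) < b := by exact_mod_cast (by omega : 0 < b)
    have hW2 : Real.log (((b * E' : ℕ) : ℝ) / (b : ℕ)) = Real.log E' := by
      congr 1; push_cast; field_simp
    rw [hW2] at hW1
    have hWE : 1 / κ + CW ≤ Real.log E' := by
      rw [Real.le_log_iff_exp_le (by linarith)]
      exact hE2.trans (by exact_mod_cast hE'1)
    rw [WP_eq]
    linarith
  · have h1 := hQ1 Q (by omega) w f τ hτ (hττ.trans ((min_le_right _ _).trans (min_le_left _ _)))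
      (hf.mono le_rfl (Nat.pow_le_pow_right (by omega) (by omega))) hnp
    have h2 := hQ2 Q (by omega) w f τ hτ (hττ.trans ((min_le_right _ _).trans (min_le_right _ _))) hf
    have e1 : 3 * b * E' = 3 * (b * E') := by ring
    rw [e1] at h2
    refine h2 h1 s (le_trans ?_ hs1) hs2
    apply mul_le_mul_of_nonneg_right _ (Real.log_natCast_nonneg Q)
    exact_mod_cast (by omega : 6 * E + b * E' + 1 ≤ 2 * (b * E') - 1)

end Pool.Agent.TH823.EL
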