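import Pool.Agent.TH823.EL.TwoSided
import Pool.Agent.TH823.PS.Scale

set_option autoImplicit false

/-!
# Constant functions on the primes are far from the characters
-/

open Finset MeasureTheory
open scoped Real

namespace Pool.Agent.TH823.EL

open Pool.Agent.TH823.PS Pool.Agent.W66 Pool.Agent.W66L

lemma re_pow_le {u : ℂ} (hu : ‖u‖ = 1) {m : ℕ} (hm : 1 ≤ m) :
    u.re ≤ 1 - (1 - (u ^ m).re) / m ^ 2 := by
  have h1 : ∀ v : ℂ, ‖v‖ = 1 → ‖v - 1‖ ^ 2 = 2 * (1 - v.re) := by
    intro v hv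
    have h2 : v.re ^ 2 + v.im ^ 2 = 1 := by
      have := Complex.normSq_eq_norm_sq v
      rw [Complex.normSq_apply, hv] at this
      nlinarith
    rw [← Complex.normSq_eq_norm_sq, Complex.normSq_apply]
    simp only [Complex.sub_re, Complex.one_re, Complex.sub_im, Complex.one_im, sub_zero]
    nlinarith
  have h2 : ‖u ^ m - 1‖ ≤ m * ‖u - 1‖ := by
    rw [← geom_sum_mul u m, norm_mul]
    apply mul_le_mul_of_nonneg_right _ (norm_nonneg _)
    refine (norm_sum_le _ _).trans ?_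
    simp only [norm_pow, hu, one_pow, sum_const, card_range, nsmul_eq_mul, mul_one, le_refl]
  have h3 := pow_le_pow_left₀ (norm_nonneg _) h2 2
  rw [mul_pow, h1 u hu, h1 (u ^ m) (by rw [norm_pow, hu, one_pow])] at h3
  have hm0 : (0 : ℝ) < m := by exact_mod_cast hm
  have h4 : (1 - (u ^ m).re) / m ^ 2 ≤ 1 - u.re := by
    rw [div_le_iff₀ (by positivity)]
    linarith
  linarith

lemma ct_pow {q : ℕ} (χ : DirichletCharacter ℂ q) (t : ℝ) (n : ℕ) {m : ℕ} (hm : m ≠ 0) :
    (ct χ t n) ^ m = ct (χ ^ m) (m * t) n := by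
  unfold ct
  rw [mul_pow, MulChar.pow_apply' χ hm, ← Complex.exp_nat_mul]
  congr 2
  push_cast
  ring

/-- one window, from the `m`-th power -/
lemma pow_window {q m y z : ℕ} (hq : 0 < q) (hqy : q ≤ y) (hm : 1 ≤ m) (χ : DirichletCharacter ℂ q) (t : ℝ) {w : ℂ}
    (hw : ‖w‖ = 1) (hwm : ‖w ^ m - 1‖ ≤ 1 / 2) :
    ∑ p ∈ PP y z, (w * ct χ t p).re / p ≤ (1 - 1 / (2 * m ^ 2)) * WW y z +
      1 / m ^ 2 * ∑ p ∈ PP y z, rt (χ ^ m) (m * t) p / p := by
  have hm0 : (0 : ℝ) < m := by exact_mod_cast hm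
  unfold WW
  rw [mul_sum, mul_sum, ← sum_add_distrib]
  apply sum_le_sum
  intro p hp
  have hcop := prime_coprime hq hqy hp
  have hp0 : (0 : ℝ) < p := by exact_mod_cast (mem_PP.1 hp).2.pos
  have hu : ‖w * ct χ t p‖ = 1 := by rw [norm_mul, hw, norm_ct χ t hcop, one_mul]
  have h1 := re_pow_le hu hm
  have h2 : ((w * ct χ t p) ^ m).re ≤ rt (χ ^ m) (m * t) p + 1 / 2 := by
    rw [mul_pow, ct_pow χ t p (by omega)]
    have h3 : w ^ m * ct (χ ^ m) (m * t) p = ct (χ ^ m) (m * t) p + (w ^ m - 1) * ct (χ ^ m) (m * t) p := by ring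
    rw [h3, Complex.add_re]
    have h4 : ((w ^ m - 1) * ct (χ ^ m) (m * t) p).re ≤ 1 / 2 := by
      refine (Complex.re_le_norm _).trans ?_
      rw [norm_mul]
      calc ‖w ^ m - 1‖ * ‖ct (χ ^ m) (m * t) p‖ ≤ 1 / 2 * 1 :=
            mul_le_mul hwm (norm_ct_le _ _ _) (norm_nonneg _) (by norm_num)
        _ = 1 / 2 := by ring
    unfold rt
    linarith
  have h5 : (w * ct χ t p).re ≤ (1 - 1 / (2 * m ^ 2)) + 1 / m ^ 2 * rt (χ ^ m) (m * t) p := by
    have h6 : (1 - ((w * ct χ t p) ^ m).re) / m ^ 2 ≥ (1 / 2 - rt (χ ^ m) (m * t) p) / m ^ 2 :=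
      div_le_div_of_nonneg_right (by linarith) (by positivity)
    have h7 : (1 / 2 - rt (χ ^ m) (m * t) p) / m ^ 2 = 1 / (2 * m ^ 2) - 1 / m ^ 2 * rt (χ ^ m) (m * t) p := by
      field_simp
    linarith
  have h6 := div_le_div_of_nonneg_right h5 hp0.le
  refine h6.trans (le_of_eq ?_)
  ring

/-- small `t` -/
lemma small_t_w {C3 : ℝ} (h3 : ∀ z : ℕ, 1 ≤ z →
    ∑ p ∈ (Icc 1 z).filter Nat.Prime, Real.log p / p ≤ Real.log z + C3) {q : ℕ}
    (χ : DirichletCharacter ℂ q) (t : ℝ) {w : ℂ} (hw : ‖w‖ ≤ 1) {y x : ℕ} (hx : 1 ≤ x) :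
    ∑ p ∈ PP y x, (w * ct χ t p).re / p ≤ ∑ p ∈ PP y x, (w * ct χ 0 p).re / p + |t| * (Real.log x + C3) := by
  have hpt : ∀ n : ℕ, (w * ct χ t n).re - (w * ct χ 0 n).re ≤ |t| * Real.log n := by
    intro n
    have h1 : (w * ct χ t n).re - (w * ct χ 0 n).re =
        (w * χ n * (Complex.exp (-(((t * Real.log n : ℝ) : ℂ) * Complex.I)) - 1)).re := by
      unfold ct
      rw [mul_sub, mul_one, Complex.sub_re]
      simp [mul_assoc]
    rw [h1]
    refine (Complex.re_le_norm _).trans ?_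
    rw [norm_mul, norm_mul]
    have h2 : ‖Complex.exp (-(((t * Real.log n : ℝ) : ℂ) * Complex.I)) - 1‖ ≤ |t| * Real.log n := by
      have h3 := Real.norm_exp_I_mul_ofReal_sub_one_le (x := -(t * Real.log n))
      have h4 : Complex.I * ((-(t * Real.log n) : ℝ) : ℂ) = -(((t * Real.log n : ℝ) : ℂ) * Complex.I) := by
        push_cast; ring
      rw [h4, norm_neg, norm_mul, Real.norm_eq_abs, Real.norm_eq_abs,
        abs_of_nonneg (Real.log_natCast_nonneg n)] at h3
      exact h3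
    have h5 : ‖w‖ * ‖χ n‖ ≤ 1 := mul_le_one₀ hw (norm_nonneg _) (χ.norm_le_one _)
    calc ‖w‖ * ‖χ n‖ * _ ≤ 1 * (|t| * Real.log n) := mul_le_mul h5 h2 (norm_nonneg _) zero_le_one
      _ = _ := one_mul _
  have h1 : ∑ p ∈ PP y x, ((w * ct χ t p).re / p - (w * ct χ 0 p).re / p) ≤
      ∑ p ∈ (Icc 1 x).filter Nat.Prime, |t| * (Real.log p / p) := by
    calc _ ≤ ∑ p ∈ PP y x, |t| * (Real.log p / p) := by
          apply sum_le_sum
          intro p _
          rw [← sub_div, mul_div_assoc']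
          exact div_le_div_of_nonneg_right (hpt p) (Nat.cast_nonneg p)
      _ ≤ _ := by
          apply sum_le_sum_of_subset_of_nonneg
          · intro p hp
            rw [mem_PP] at hp
            rw [mem_filter, mem_Icc]
            exact ⟨⟨by omega, hp.1.2⟩, hp.2⟩
          · intro p _ _
            have := Real.log_natCast_nonneg p
            positivity
  rw [sum_sub_distrib, ← mul_sum] at h1
  have h2 := mul_le_mul_of_nonneg_left (h3 x hx) (abs_nonneg t)
  linarith

/-- **all characters, unimodular `w` different from `1` and `-1`** -/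
theorem far_unit : ∃ C : ℝ, 0 < C ∧ ∀ (w : ℂ), ‖w‖ = 1 → ∀ c : ℝ, 0 ≤ c → |w.re| ≤ 1 - c → ∀ m : ℕ, 1 ≤ m →
    ‖w ^ m - 1‖ ≤ 1 / 2 → c ≤ 1 / (2 * m ^ 2) →
    ∀ (q : ℕ) [NeZero q] (y z : ℕ), 3 ≤ y → y ≤ z → q ≤ y → ∀ t : ℝ, lq q (m * t) ≤ Real.log y →
    ∀ χ : DirichletCharacter ℂ q, ∑ p ∈ PP y z, (w * ct χ t p).re / p ≤ (1 - c) * WW y z + C := by
  obtain ⟨C1, hC1, hnp⟩ := upper_np
  obtain ⟨C2, hC2, hpr⟩ := upper_pr
  obtain ⟨C3, hC3, hls⟩ := log_sum
  obtain ⟨C4, hC4, htw⟩ := two_np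
  refine ⟨C1 + C2 + C3 + C4 + 2, by positivity,
    fun w hw c hc0 hc m hm hwm hcm q _ y z hy hyz hqy t hlq χ => ?_⟩
  have hq : 0 < q := Nat.pos_of_ne_zero (NeZero.ne q)
  have hl1 := log_ge_one hy
  have hm0 : (1 : ℝ) ≤ m := by exact_mod_cast hm
  have hm2 : 1 / (m : ℝ) ^ 2 ≤ 1 := by
    rw [div_le_one (by positivity)]; exact one_le_pow₀ hm0
  have hm20 : 0 < 1 / (m : ℝ) ^ 2 := by positivity
  have hW0 := WW_nonneg y z
  have hc1 : 1 - 1 / (2 * (m : ℝ) ^ 2) ≤ 1 - c := by linarith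
  have hell : ell (m * t) ≤ Real.log y := (ell_le_lq q (m * t)).trans hlq
  by_cases h1 : χ ^ m = 1
  swap
  · have h2 := pow_window (z := z) hq hqy hm χ t hw hwm
    have h3 := hnp q (χ ^ m) h1 (m * t) y z hy hyz hlq
    have h4 := mul_le_mul_of_nonneg_left h3 hm20.le
    have h5 := mul_le_mul_of_nonneg_right hm2 hC1.le
    have h6 := mul_le_mul_of_nonneg_right hc1 hW0
    linarith
  -- the principal case, large `t`
  have hbig : ∀ y' : ℕ, y ≤ y' → y' ≤ z → 1 ≤ |m * t| * Real.log y' →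
      ∑ p ∈ PP y' z, (w * ct χ t p).re / p ≤ (1 - c) * WW y' z + C2 := by
    intro y' hy1 hy2 ht
    have h2 := pow_window (z := z) hq (hqy.trans hy1) hm χ t hw hwm
    have h3 : ∑ p ∈ PP y' z, rt (χ ^ m) (m * t) p / p ≤ C2 := by
      have h4 : ∑ p ∈ PP y' z, rt (χ ^ m) (m * t) p / p = ∑ p ∈ PP y' z, Real.cos (m * t * Real.log p) / p := by
        apply sum_congr rfl
        intro p hp
        rw [h1, rt_one (m * t) (prime_coprime hq (hqy.trans hy1) hp)]
      rw [h4]
      exact hpr (m * t) y' z (hy.trans hy1) hy2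
        (hell.trans (Real.log_le_log (by positivity) (by exact_mod_cast hy1))) ht
    have h4 := mul_le_mul_of_nonneg_left h3 hm20.le
    have h5 := mul_le_mul_of_nonneg_right hm2 hC2.le
    have h6 := mul_le_mul_of_nonneg_right hc1 (WW_nonneg y' z)
    linarith
  -- `t = 0`
  have hzero : ∀ x : ℕ, y ≤ x → ∑ p ∈ PP y x, (w * ct χ 0 p).re / p ≤ (1 - c) * WW y x + C4 := by
    intro x hyx
    by_cases h2 : χ ^ 2 = 1
    · have h3 : ∑ p ∈ PP y x, (w * ct χ 0 p).re / p ≤ (1 - c) * WW y x := by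
        unfold WW
        rw [mul_sum]
        apply sum_le_sum
        intro p hp
        have hcop := prime_coprime hq hqy hp
        rw [mul_one_div]
        apply div_le_div_of_nonneg_right _ (Nat.cast_nonneg p)
        have h4 : ct χ 0 p = χ (p : ZMod q) := by unfold ct; simp
        have hsq : (χ (p : ZMod q)) ^ 2 = 1 := by
          rw [← MulChar.pow_apply' χ two_ne_zero, h2, MulChar.one_apply ((ZMod.isUnit_iff_coprime p q).2 hcop)]
        rw [h4]
        have hmz : (χ (p : ZMod q) - 1) * (χ (p : ZMod q) + 1) = 0 := by linear_combination hsq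
        rcases mul_eq_zero.1 hmz with h5 | h5
        · rw [sub_eq_zero.1 h5, mul_one]; exact (le_abs_self _).trans hc
        · rw [eq_neg_of_add_eq_zero_left h5, mul_neg, mul_one, Complex.neg_re]; exact (neg_le_abs _).trans hc
      linarith
    · have h3 := htw q χ h2 0 y x hy hyx (by
        refine le_trans ?_ hlq
        unfold lq ell
        have : Real.log (|(0 : ℝ)| + 3) ≤ Real.log (|(m : ℝ) * t| + 3) := by
          apply Real.log_le_log (by positivity)
          rw [abs_zero]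
          have := abs_nonneg ((m : ℝ) * t)
          linarith
        linarith) w hw.le
      have h4 : 0 ≤ (1 - c) * WW y x := by
        have : 0 ≤ 1 - c := (abs_nonneg _).trans hc
        exact mul_nonneg this (WW_nonneg y x)
      linarith
  rcases le_or_gt 1 (|m * t| * Real.log y) with h3 | h3
  · have := hbig y le_rfl hyz h3
    linarith
  -- small `t`
  have ht2 : |m * t| = m * |t| := by rw [abs_mul, Nat.abs_cast]
  have htabs := abs_nonneg t
  rw [ht2] at h3
  have hmt : 0 ≤ m * |t| := by positivity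
  have htm : |t| ≤ m * |t| := le_mul_of_one_le_left htabs hm0
  have hts : m * |t| < 1 := by nlinarith
  by_cases hcase : m * |t| * Real.log z ≤ 2
  · have h4 := small_t_w hls χ t hw.le (y := y) (x := z) (by omega)
    have hlz : 0 ≤ Real.log z := Real.log_natCast_nonneg z
    have h5 : |t| * (Real.log z + C3) ≤ 2 + C3 := by
      have h6 := mul_le_mul_of_nonneg_right htm hlz
      have h7 : |t| * C3 ≤ 1 * C3 := mul_le_mul_of_nonneg_right (by linarith) hC3.le
      linarith
    have h6 := hzero z hyz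
    linarith
  have hcase' := not_le.1 hcase
  have htpos : 0 < m * |t| := by
    by_contra hc'
    have h0 : m * |t| = 0 := le_antisymm (not_lt.1 hc') hmt
    rw [h0] at hcase'
    linarith
  set x : ℕ := ⌊Real.exp (1 / (m * |t|))⌋₊ + 1 with hx
  have hex1 : 1 ≤ Real.exp (1 / (m * |t|)) := Real.one_le_exp (by positivity)
  have hxle : (x : ℝ) ≤ 2 * Real.exp (1 / (m * |t|)) := by
    rw [hx]
    push_cast
    have := Nat.floor_le (by positivity : 0 ≤ Real.exp (1 / (m * |t|)))
    linarith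
  have hxge : Real.exp (1 / (m * |t|)) ≤ x := by
    rw [hx]
    push_cast
    exact (Nat.lt_floor_add_one _).le
  have hx0 : (0 : ℝ) < x := by linarith
  have hlogx1 : 1 ≤ m * |t| * Real.log x := by
    have h4 : 1 / (m * |t|) ≤ Real.log x := by
      rw [Real.le_log_iff_exp_le hx0]
      exact hxge
    rw [div_le_iff₀ htpos] at h4
    linarith
  have hlogx2 : m * |t| * Real.log x ≤ 2 := by
    have h4 : Real.log x ≤ Real.log 2 + 1 / (m * |t|) := by
      have := Real.log_le_log hx0 hxle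
      rw [Real.log_mul two_ne_zero (Real.exp_pos _).ne', Real.log_exp] at this
      exact this
    have h5 : Real.log 2 ≤ 1 := by have := Real.log_two_lt_d9; linarith
    have h6 : m * |t| * (1 / (m * |t|)) = 1 := mul_one_div_cancel htpos.ne'
    calc m * |t| * Real.log x ≤ m * |t| * (Real.log 2 + 1 / (m * |t|)) :=
          mul_le_mul_of_nonneg_left h4 htpos.le
      _ = m * |t| * Real.log 2 + 1 := by rw [mul_add, h6]
      _ ≤ 2 := by nlinarith
  have hyx : y ≤ x := by
    have h4 : Real.log y ≤ Real.log x := by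
      have h5 : m * |t| * Real.log y ≤ m * |t| * Real.log x := by linarith
      exact le_of_mul_le_mul_left h5 htpos
    have h6 := (Real.log_le_log_iff (by positivity) hx0).1 h4
    exact_mod_cast h6
  have hxz : x ≤ z := by
    by_contra hc'
    have h4 : (z : ℝ) ≤ x := by exact_mod_cast (not_le.1 hc').le
    have hz0 : (0 : ℝ) < z := by exact_mod_cast (by omega : 0 < z)
    have h5 : Real.log z ≤ Real.log x := Real.log_le_log hz0 h4
    have h6 := mul_le_mul_of_nonneg_left h5 htpos.le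
    linarith
  have h4 := hbig x hyx hxz (by rw [ht2]; exact hlogx1)
  have h5 := small_t_w hls χ t hw.le (y := y) (x := x) (by omega)
  have h6 := hzero x hyx
  have h7 : |t| * (Real.log x + C3) ≤ 2 + C3 := by
    have hlx : 0 ≤ Real.log x := Real.log_natCast_nonneg x
    have h6 := mul_le_mul_of_nonneg_right htm hlx
    have h7 : |t| * C3 ≤ 1 * C3 := mul_le_mul_of_nonneg_right (by linarith) hC3.le
    linarith
  rw [WW_split hyx hxz (fun p => (w * ct χ t p).re / p)]
  have h8 : WW y z = WW y x + WW x z := by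
    unfold WW
    exact WW_split hyx hxz (fun p => 1 / (p : ℝ))
  rw [h8]
  linarith

end Pool.Agent.TH823.EL
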