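import Pool.Agent.TH823.EL.Every
import Pool.Agent.TH823.EL.Arcs
import Pool.Agent.TH823.EL.FamU
import Pool.Agent.TH823.PS.Main

set_option autoImplicit false

/-!
# Every scale is good, uniformly in the function
-/

open Finset MeasureTheory
open scoped Real
open Pool.Agent.Helper112

namespace Pool.Agent.TH823.EL

open Pool.Agent.TH823.PS

/-- **the estimate at every scale** -/
theorem good_every (E00 : ℕ) (c : ℝ) (hc : 0 < c) (hc1 : c ≤ 1) (Bf Lf p : ℕ) (hp : 1 ≤ p) {ε : ℝ} (hε : 0 < ε)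
    (hε1 : ε ≤ 1) :
    ∃ τ1 : ℝ, 0 < τ1 ∧ ∃ E D : ℕ, E00 < E ∧ 6 * E + 2 ≤ D ∧ ∃ Q0 : ℕ, 3 ≤ Q0 ∧ ∀ Q : ℕ, Q0 ≤ Q →
      ∀ (w f : ℕ → ℂ) (τ : ℝ), 0 ≤ τ → τ ≤ τ1 → Win (Q ^ 6) (Q ^ D) τ w f →
      NPW c Q (Q ^ 6) (Q ^ (6 * E)) w → ∀ N : ℕ, Q ^ (2 * D) ≤ N → N ≤ Q ^ (2 * D + 1) →
      GoodF f Bf Lf p ε (1 / (4 * (2 * p + 1) * ((3 * D : ℕ) : ℝ))) N := by
  set b0 : ℕ := 2 * (Bf + 1) with hb0d
  set c0 : ℕ := (4 * p + 5) * (Bf + 1) with hc0d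
  have hb01 : 1 ≤ b0 := by omega
  have hbc : b0 ≤ c0 := by rw [hb0d, hc0d]; exact Nat.mul_le_mul_right _ (by omega)
  have hbr : (1 : ℝ) ≤ b0 := by exact_mod_cast hb01
  have hcr : (1 : ℝ) ≤ c0 := by exact_mod_cast hb01.trans hbc
  have hbe : (b0 : ℝ) = 2 * (Bf + 1) := by rw [hb0d]; push_cast; ring
  have hce : (c0 : ℝ) = (4 * p + 5) * (Bf + 1) := by rw [hc0d]; push_cast; ring
  set κ : ℝ := ε ^ 2 / (64000 * b0 * c0) with hκd
  have hκ0 : 0 < κ := by positivity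
  have hκ1 : κ ≤ 1 := by
    rw [hκd, div_le_one (by positivity)]
    have h1 : ε ^ 2 ≤ 1 := pow_le_one₀ hε.le hε1
    have h2 : (1 : ℝ) ≤ b0 * c0 := one_le_mul_of_one_le_of_one_le hbr hcr
    linarith
  obtain ⟨τ2, hτ2, hτ21, E, b, D, hE, hb, hbD, hED, Q5, hQ53, hev⟩ := every E00 c κ hc hc1 hκ0 hκ1
  set B : ℕ := 3 * D with hB
  have hB1 : 1 ≤ B := by omega
  have hB0 : (0 : ℝ) < B := by exact_mod_cast hB1
  set δ : ℝ := 1 / (4 * (2 * p + 1) * (B : ℝ)) with hδ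
  obtain ⟨Cf, hCf0, hfam⟩ := fam_good_u Bf Lf p hp δ hε
  set c1 : ℝ := ε ^ 2 / (200 * (2 * 10 ^ 4) * (B : ℝ) ^ 6 * (b0 : ℝ) ^ 2) with hc1d
  have hc1p : 0 < c1 := by positivity
  obtain ⟨Q1, hQ1⟩ := log_pow_small 6 hc1p
  obtain ⟨Q2, hQ2⟩ := exists_nat_ge (2048 * 200 * (b0 : ℝ) ^ 2 / ε ^ 2 + Cf)
  obtain ⟨Q3, hQ3⟩ := exists_nat_ge ((2 * Cf) ^ 4)
  refine ⟨min τ2 κ, lt_min hτ2 hκ0, E, D, hE, hED, Q1 + Q2 + Q3 + Q5 + b0 + 4, by omega,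
    fun Q hQ w f τ hτ hττ hf hnp N hN1 hN2 => ?_⟩
  have hτ1 : τ ≤ 1 := (hττ.trans (min_le_left _ _)).trans hτ21
  have hτκ : τ ^ 2 ≤ κ := by
    have h1 : τ ≤ κ := hττ.trans (min_le_right _ _)
    have h2 : τ * τ ≤ κ * 1 := mul_le_mul h1 hτ1 hτ hκ0.le
    rw [sq]; linarith
  have hQ4 : 4 ≤ Q := by omega
  have hQr : (4 : ℝ) ≤ Q := by exact_mod_cast hQ4
  have hQ0 : (0 : ℝ) < Q := by linarith
  have hQ1' : (1 : ℝ) ≤ Q := by linarith
  obtain ⟨hWbig, hint⟩ := hev Q (by omega)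
  have hint := hint w f τ hτ (hττ.trans (min_le_left _ _)) hf hnp
  have hL := log_ge_one (by omega : 3 ≤ Q)
  set L := Real.log Q with hLd
  have hN0 : 0 < N := lt_of_lt_of_le (by positivity) hN1
  have hNr : (0 : ℝ) < N := by exact_mod_cast hN0
  set Y := b0 * N with hY
  have hNY : N ≤ Y := Nat.le_mul_of_pos_left _ (by omega)
  have hY0 : 0 < Y := by omega
  have hYr : (0 : ℝ) < Y := by exact_mod_cast hY0
  have hYe : (Y : ℝ) = b0 * N := by rw [hY]; push_cast; ring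
  have hQN : Q ≤ N := (Nat.le_self_pow (by omega) Q).trans hN1
  have hYB' : Y ≤ Q ^ (2 * D + 2) := by
    calc Y ≤ Q * Q ^ (2 * D + 1) := Nat.mul_le_mul (by omega) hN2
      _ = Q ^ (2 * D + 2) := by ring
  have hYB : Y ≤ Q ^ B := hYB'.trans (Nat.pow_le_pow_right (by omega) (by omega))
  have hQ2r : 2048 * 200 * (b0 : ℝ) ^ 2 / ε ^ 2 + Cf ≤ (Q : ℝ) := by
    refine hQ2.trans ?_
    exact_mod_cast (by omega : Q2 ≤ Q)
  have hbQ : 2048 * 200 * (b0 : ℝ) ^ 2 / ε ^ 2 ≤ (Q : ℝ) := by linarith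
  have hCQ : Cf ≤ (Q : ℝ) := by
    have : 0 < 2048 * 200 * (b0 : ℝ) ^ 2 / ε ^ 2 := by positivity
    linarith
  have hsq0 : 0 < √(Q : ℝ) := Real.sqrt_pos.2 hQ0
  have hsq1 : √(Q : ℝ) ^ 2 = Q := Real.sq_sqrt hQ0.le
  set J : ℕ := Nat.sqrt Q with hJ
  have hJle : (J : ℝ) ≤ √(Q : ℝ) := by
    apply Real.le_sqrt_of_sq_le
    exact_mod_cast Nat.sqrt_le' Q
  have hJge : √(Q : ℝ) / 2 ≤ J := by
    have h1 : √(Q : ℝ) ≤ J + 1 := by
      rw [Real.sqrt_le_left (by positivity)]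
      have : Q < (Nat.sqrt Q + 1) ^ 2 := Nat.lt_succ_sqrt' Q
      exact_mod_cast this.le
    have h2 : 2 ≤ √(Q : ℝ) := by
      apply Real.le_sqrt_of_sq_le
      linarith
    linarith
  have hz1 : 1 ≤ Q ^ (6 * E) := Nat.one_le_pow _ _ (by omega)
  have hzN : Q ^ (6 * E) * Q ^ 9 ≤ N := by
    rw [← pow_add]; exact (Nat.pow_le_pow_right (by omega) (by omega)).trans hN1
  have hzY : Q ^ (6 * E) ≤ Y := by
    have h1 : Q ^ (6 * E) ≤ Q ^ (6 * E) * Q ^ 9 := Nat.le_mul_of_pos_right _ (by positivity)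
    omega
  have hh0 : 0 < 1 / (Q : ℝ) ^ 3 := by positivity
  have hh1 : 1 / (Q : ℝ) ^ 3 ≤ 1 := by
    rw [div_le_one (by positivity)]
    exact one_le_pow₀ hQ1'
  -- the logarithm of `Y`
  have hlogYl : ((2 * D : ℕ) : ℝ) * L ≤ Real.log Y := by
    have h1 : (Q : ℝ) ^ (2 * D) ≤ Y := by exact_mod_cast hN1.trans hNY
    have := Real.log_le_log (by positivity) h1
    rwa [Real.log_pow] at this
  have hlogYu : Real.log Y ≤ ((2 * D + 2 : ℕ) : ℝ) * L := by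
    have h1 : (Y : ℝ) ≤ (Q : ℝ) ^ (2 * D + 2) := by exact_mod_cast hYB'
    have := Real.log_le_log hYr h1
    rwa [Real.log_pow] at this
  have hs1 : ((2 * D - 1 : ℕ) : ℝ) * L ≤ Real.log Y := by
    refine le_trans ?_ hlogYl
    apply mul_le_mul_of_nonneg_right _ (by linarith)
    exact_mod_cast (by omega : 2 * D - 1 ≤ 2 * D)
  have hs2 : Real.log Y ≤ ((3 * D : ℕ) : ℝ) * L - 1 := by
    have h1 : ((2 * D + 2 : ℕ) : ℝ) + 1 ≤ ((3 * D : ℕ) : ℝ) := by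
      exact_mod_cast (by omega : 2 * D + 2 + 1 ≤ 3 * D)
    have h2 := mul_le_mul_of_nonneg_right h1 (by linarith : 0 ≤ L)
    linarith
  have hint := hint (Real.log Y) hs1 hs2
  rw [Real.exp_log hYr] at hint
  -- the errors
  set Er : ℝ := ((Q ^ (6 * E) : ℕ) : ℝ) + 4 + 18 * (1 / (Q : ℝ) ^ 3) * Y +
    4 * π * (1 / (Q : ℝ) ^ 3) * Q * Y with hEr
  have hErle : Er ≤ 32 * Y / (Q : ℝ) ^ 2 := by
    have h1 : ((Q ^ (6 * E) : ℕ) : ℝ) + 4 ≤ Y / (Q : ℝ) ^ 2 := by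
      rw [le_div_iff₀ (by positivity)]
      have h2 : (Q ^ (6 * E) + 4) * Q ^ 2 ≤ Y := by
        have h3 : 4 ≤ Q ^ (6 * E) * 4 := by omega
        have h4 : (Q ^ (6 * E) + 4) * Q ^ 2 ≤ (Q ^ (6 * E) * 5) * Q ^ 2 :=
          Nat.mul_le_mul_right _ (by omega)
        have h5 : 5 * Q ^ 2 ≤ Q ^ 9 := by
          have h6 : Q ^ 9 = Q ^ 7 * Q ^ 2 := by ring
          rw [h6]
          apply Nat.mul_le_mul_right
          have h7 : 4 ^ 7 ≤ Q ^ 7 := Nat.pow_le_pow_left hQ4 7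
          have h8 : (4 : ℕ) ^ 7 = 16384 := by norm_num
          omega
        have h6 : (Q ^ (6 * E) * 5) * Q ^ 2 ≤ Q ^ (6 * E) * Q ^ 9 := by
          rw [mul_assoc]; exact Nat.mul_le_mul_left _ h5
        omega
      exact_mod_cast h2
    have h2 : 18 * (1 / (Q : ℝ) ^ 3) * Y ≤ 18 * (Y / (Q : ℝ) ^ 2) := by
      rw [mul_assoc]
      apply mul_le_mul_of_nonneg_left _ (by norm_num)
      rw [one_div_mul_eq_div]
      apply div_le_div_of_nonneg_left hYr.le (by positivity)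
      exact pow_le_pow_right₀ hQ1' (by norm_num)
    have h3 : 4 * π * (1 / (Q : ℝ) ^ 3) * Q * Y = 4 * π * (Y / (Q : ℝ) ^ 2) := by
      field_simp
    have h4 : 4 * π * (Y / (Q : ℝ) ^ 2) ≤ 13 * (Y / (Q : ℝ) ^ 2) := by
      apply mul_le_mul_of_nonneg_right _ (by positivity)
      have := Real.pi_lt_d2
      linarith
    rw [hEr, h3]
    have h5 : 32 * Y / (Q : ℝ) ^ 2 = 32 * (Y / (Q : ℝ) ^ 2) := by ring
    rw [h5]
    linarith
  have hEr0 : 0 ≤ Er := by rw [hEr]; positivity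
  have hlogY : Real.log Y ≤ B * L := by
    refine hs2.trans ?_
    rw [hB]; linarith
  have hlogY0 : 0 ≤ Real.log Y := Real.log_natCast_nonneg Y
  have hlogY1 : 1 ≤ Real.log Y := by
    refine le_trans ?_ hlogYl
    have : (1 : ℝ) ≤ ((2 * D : ℕ) : ℝ) := by exact_mod_cast (by omega : 1 ≤ 2 * D)
    exact one_le_mul_of_one_le_of_one_le this hL.le
  set Xm : ℕ := (4 * p + 5) * ((Bf + 1) * N) with hXm
  have hXmc : Xm = c0 * N := by rw [hXm, hc0d]; ring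
  have hXme : (Xm : ℝ) = c0 * N := by rw [hXmc]; push_cast; ring
  have hYX : Y ≤ Xm := by rw [hXmc, hY]; exact Nat.mul_le_mul_right _ hbc
  have hYH : 2 * ((Bf + 1) * N) = Y := by rw [hY, hb0d]; ring
  -- comparison of the powers
  have hδ' : (N : ℝ) ^ ((2 * p + 1) * δ) ≤ (Q : ℝ) ^ ((1 : ℝ) / 4) := by
    have h1 : (N : ℝ) ≤ (Q : ℝ) ^ (B : ℝ) := by
      rw [Real.rpow_natCast]
      have : N ≤ Q ^ B := hNY.trans hYB
      exact_mod_cast this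
    calc (N : ℝ) ^ ((2 * p + 1) * δ) ≤ ((Q : ℝ) ^ (B : ℝ)) ^ ((2 * p + 1) * δ) :=
          Real.rpow_le_rpow hNr.le h1 (by positivity)
      _ = (Q : ℝ) ^ ((1 : ℝ) / 4) := by
          rw [← Real.rpow_mul hQ0.le]
          congr 1
          rw [hδ]
          field_simp
  have hsqrt : √(Q : ℝ) = (Q : ℝ) ^ ((1 : ℝ) / 4) * (Q : ℝ) ^ ((1 : ℝ) / 4) := by
    rw [← Real.rpow_add hQ0, Real.sqrt_eq_rpow]
    norm_num
  have hC4 : 2 * Cf ≤ (Q : ℝ) ^ ((1 : ℝ) / 4) := by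
    have h1 : (2 * Cf) ^ 4 ≤ (Q : ℝ) := hQ3.trans (by exact_mod_cast (by omega : Q3 ≤ Q))
    have h2 : ((2 * Cf) ^ 4) ^ ((1 : ℝ) / 4) ≤ (Q : ℝ) ^ ((1 : ℝ) / 4) :=
      Real.rpow_le_rpow (by positivity) h1 (by norm_num)
    have h3 : ((2 * Cf) ^ 4) ^ ((1 : ℝ) / 4) = 2 * Cf := by
      rw [← Real.rpow_natCast, ← Real.rpow_mul (by positivity)]
      norm_num
    rwa [h3] at h2
  have hq0 : 0 < (Q : ℝ) ^ ((1 : ℝ) / 4) := by positivity
  apply hfam f hf.bd N (hCQ.trans (by exact_mod_cast hQN)) J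
  · calc Cf * (N : ℝ) ^ ((2 * p + 1) * δ) ≤ Cf * (Q : ℝ) ^ ((1 : ℝ) / 4) :=
            mul_le_mul_of_nonneg_left hδ' hCf0.le
        _ ≤ (Q : ℝ) ^ ((1 : ℝ) / 4) / 2 * (Q : ℝ) ^ ((1 : ℝ) / 4) := by
            apply mul_le_mul_of_nonneg_right _ hq0.le
            linarith
        _ = √(Q : ℝ) / 2 := by rw [hsqrt]; ring
        _ ≤ J := hJge
  · intro K hK1 hK2
    rw [← hXm, hYH]
    set W := WP (PP (Q ^ b) (Q ^ D)) with hWd
    have hW1 : 1 ≤ W := by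
      refine le_trans ?_ hWbig
      rw [le_div_iff₀ hκ0]; linarith
    have hWp : 0 < W := by linarith
    have hWκ : 1 / W ≤ κ := by
      rw [div_le_iff₀ hWp]
      rw [div_le_iff₀ hκ0] at hWbig
      linarith
    classical
    have hm := minor_sum (X := Xm) (Y := Y) (by omega : 1 ≤ Q) hb hbD hf hτ hτ1
      ((Nat.pow_le_pow_right (by omega) (by omega)).trans (hN1.trans hNY)) hYX hlogY1 hWp
      (K.filter (fun k : ℕ => ¬ ∃ (q : ℕ) (c : ℤ), Pool.Agent.W93.LM.MajAt Y Q ((k : ℝ) / Xm) q c))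
      ((filter_subset _ _).trans hK1) (fun k hk => (mem_filter.1 hk).2)
    rw [← hWd] at hm
    have h1 := arcs_m (N := Q ^ B) hf.bd hYX hz1 hzY hYB (by omega) hh0 hh1 K hK1 hm
    have htgt : (ε / (8 * (4 * p + 5) * (Bf + 1)) * (Xm : ℝ)) ^ 2 = ε ^ 2 / 64 * (N : ℝ) ^ 2 := by
      rw [hXme, hce]; field_simp; ring
    rw [htgt]
    simp only [ee_eq]
    have hKJ : (K.card : ℝ) ≤ √(Q : ℝ) := by
      refine le_trans ?_ hJle
      exact_mod_cast hK2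
    set Km := K.filter (fun k : ℕ => ¬ ∃ (q : ℕ) (c : ℤ), Pool.Agent.W93.LM.MajAt Y Q ((k : ℝ) / Xm) q c) with hKm
    have hKmJ : (Km.card : ℝ) ≤ √(Q : ℝ) := by
      refine le_trans ?_ hKJ
      exact_mod_cast card_filter_le _ _
    have hW2 : 2 / W ^ 2 ≤ 2 := by
      rw [div_le_iff₀ (by positivity)]
      have : 1 ≤ W ^ 2 := one_le_pow₀ hW1
      linarith
    have a1 : 2 / W ^ 2 * (Km.card * (100 * Real.log Y ^ 3 * Y / √(Q : ℝ)) ^ 2) ≤ ε ^ 2 / 200 * (N : ℝ) ^ 2 := by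
      have h2 : (100 * Real.log Y ^ 3 * Y / √(Q : ℝ)) ^ 2 = 10 ^ 4 * (Real.log Y ^ 6) * (Y : ℝ) ^ 2 / Q := by
        rw [div_pow, hsq1]; ring
      rw [h2]
      have h3 : Real.log Y ^ 6 ≤ (B : ℝ) ^ 6 * L ^ 6 := by
        rw [← mul_pow]
        exact pow_le_pow_left₀ hlogY0 hlogY _
      have h4 := hQ1 Q (by omega)
      have h5 : 2 * (10 ^ 4 * Real.log Y ^ 6) ≤ ε ^ 2 / (200 * (b0 : ℝ) ^ 2) * √(Q : ℝ) := by
        calc 2 * (10 ^ 4 * Real.log Y ^ 6) ≤ 2 * (10 ^ 4 * ((B : ℝ) ^ 6 * (c1 * √(Q : ℝ)))) := by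
              apply mul_le_mul_of_nonneg_left _ (by norm_num)
              apply mul_le_mul_of_nonneg_left _ (by norm_num)
              exact h3.trans (mul_le_mul_of_nonneg_left h4 (by positivity))
          _ = ε ^ 2 / (200 * (b0 : ℝ) ^ 2) * √(Q : ℝ) := by rw [hc1d]; field_simp
      calc 2 / W ^ 2 * (Km.card * (10 ^ 4 * Real.log Y ^ 6 * (Y : ℝ) ^ 2 / Q))
          ≤ 2 * (√(Q : ℝ) * (10 ^ 4 * Real.log Y ^ 6 * (Y : ℝ) ^ 2 / Q)) := by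
            apply mul_le_mul hW2 _ (by positivity) (by norm_num)
            exact mul_le_mul_of_nonneg_right hKmJ (by positivity)
        _ = √(Q : ℝ) * ((2 * (10 ^ 4 * Real.log Y ^ 6)) * (Y : ℝ) ^ 2 / Q) := by ring
        _ ≤ √(Q : ℝ) * ((ε ^ 2 / (200 * (b0 : ℝ) ^ 2) * √(Q : ℝ)) * (Y : ℝ) ^ 2 / Q) := by
            apply mul_le_mul_of_nonneg_left _ hsq0.le
            apply div_le_div_of_nonneg_right _ hQ0.le
            exact mul_le_mul_of_nonneg_right h5 (by positivity)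
        _ = ε ^ 2 / (200 * (b0 : ℝ) ^ 2) * (Y : ℝ) ^ 2 * (√(Q : ℝ) ^ 2 / Q) := by ring
        _ = ε ^ 2 / (200 * (b0 : ℝ) ^ 2) * (Y : ℝ) ^ 2 := by rw [hsq1, div_self hQ0.ne', mul_one]
        _ = ε ^ 2 / 200 * (N : ℝ) ^ 2 := by rw [hYe]; field_simp
    have a4 : 2 / W ^ 2 * (Xm * ((48 * W + 32 + 4 * (τ * W) ^ 2) * Y)) ≤ ε ^ 2 / 300 * (N : ℝ) ^ 2 := by
      have e1 : 2 / W ^ 2 * (Xm * ((48 * W + 32 + 4 * (τ * W) ^ 2) * Y)) =
          (96 * (1 / W) + 64 * (1 / W) ^ 2 + 8 * τ ^ 2) * (Xm * Y) := by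
        field_simp
        ring
      rw [e1]
      have hx0 : 0 < 1 / W := by positivity
      have hx2 : (1 / W) ^ 2 ≤ κ := by
        have : 1 / W ≤ 1 := hWκ.trans hκ1
        rw [sq]
        calc 1 / W * (1 / W) ≤ κ * 1 := mul_le_mul hWκ this hx0.le hκ0.le
          _ = κ := mul_one κ
      have h2 : 96 * (1 / W) + 64 * (1 / W) ^ 2 + 8 * τ ^ 2 ≤ 168 * κ := by linarith
      calc (96 * (1 / W) + 64 * (1 / W) ^ 2 + 8 * τ ^ 2) * (Xm * Y) ≤ 168 * κ * (Xm * Y) :=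
            mul_le_mul_of_nonneg_right h2 (by positivity)
        _ = 168 / 64000 * ε ^ 2 * (N : ℝ) ^ 2 := by
            rw [hXme, hYe, hκd]; field_simp
        _ ≤ ε ^ 2 / 300 * (N : ℝ) ^ 2 := by
            apply mul_le_mul_of_nonneg_right _ (by positivity)
            have : 0 < ε ^ 2 := by positivity
            linarith
    have a2 : 2 * (K.card : ℝ) * Er ^ 2 ≤ ε ^ 2 / 200 * (N : ℝ) ^ 2 := by
      have h2 : Er ^ 2 ≤ (32 * Y / (Q : ℝ) ^ 2) ^ 2 := pow_le_pow_left₀ hEr0 hErle 2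
      have h3 : (K.card : ℝ) ≤ Q := by
        refine hKJ.trans ?_
        rw [Real.sqrt_le_left hQ0.le]
        exact le_self_pow₀ hQ1' (by norm_num)
      calc 2 * (K.card : ℝ) * Er ^ 2 ≤ 2 * Q * (32 * Y / (Q : ℝ) ^ 2) ^ 2 :=
            mul_le_mul (by linarith) h2 (by positivity) (by positivity)
        _ = 2048 * (b0 : ℝ) ^ 2 / (Q : ℝ) ^ 3 * (N : ℝ) ^ 2 := by rw [hYe]; field_simp; ring
        _ ≤ ε ^ 2 / 200 * (N : ℝ) ^ 2 := by
            apply mul_le_mul_of_nonneg_right _ (by positivity)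
            have h4 : 2048 * (b0 : ℝ) ^ 2 / (Q : ℝ) ^ 3 ≤ 2048 * (b0 : ℝ) ^ 2 / Q :=
              div_le_div_of_nonneg_left (by positivity) hQ0 (le_self_pow₀ hQ1' (by norm_num))
            refine h4.trans ?_
            rw [div_le_iff₀ hQ0]
            rw [div_le_iff₀ (by positivity)] at hbQ
            linarith
    have a3 : 2 * ((Xm : ℝ) * ∫ x in Set.Iic (Real.log Y), Real.exp x *
        EE (1 / (Q : ℝ) ^ 3) Q (Ioc (Q ^ (6 * E)) (Q ^ B)) (fun n => f n / n) x) ≤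
        ε ^ 2 / 1000 * (N : ℝ) ^ 2 := by
      have h2 := mul_le_mul_of_nonneg_left hint (by positivity : (0 : ℝ) ≤ Xm)
      have h3 : (Xm : ℝ) * (κ * Y) = ε ^ 2 / 64000 * (N : ℝ) ^ 2 := by
        rw [hXme, hYe, hκd]; field_simp
      rw [h3] at h2
      have h9 : 0 ≤ ε ^ 2 * (N : ℝ) ^ 2 := by positivity
      linarith
    refine h1.trans ?_
    rw [mul_add] 
    have h9 : 0 ≤ ε ^ 2 * (N : ℝ) ^ 2 := by positivity
    linarith

end Pool.Agent.TH823.EL
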