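import Pool.Agent.TH823.PS.Fin3
import Pool.Agent.TH823.EL.GoodU

set_option autoImplicit false

/-!
# Families and polynomial values at every scale
-/

open Finset Polynomial

namespace Pool.Agent.TH823.EL

open Pool.Agent.TH823.PS
open Pool.Agent.H373R2.T7 (exI energy)
open Pool.Agent.TH823.Fam (energy_poly' poly_size)

lemma good_monoB {f : ℕ → ℂ} {B B' L p : ℕ} {ε δ : ℝ} {N : ℕ} (hB : B ≤ B') (hG : GoodF f B' L p ε δ N) :
    GoodF f B L p ε δ N := by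
  classical
  intro x s hs hE a g ha hg
  have hBB : B * N ≤ B' * N := Nat.mul_le_mul_right _ hB
  have h2 := hG x s (fun m hm => (hs m hm).trans (by exact_mod_cast hBB)) hE a
    (fun l n => if n ≤ B * N / a l then g l n else 0) ha (by
      intro l
      have h3 : ∑ n ∈ Icc 1 (B' * N / a l), ‖(if n ≤ B * N / a l then g l n else 0)‖ ^ 2 =
          ∑ n ∈ Icc 1 (B * N / a l), ‖g l n‖ ^ 2 := by
        have h4 : Icc 1 (B * N / a l) = (Icc 1 (B' * N / a l)).filter (fun n => n ≤ B * N / a l) := by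
          have := Nat.div_le_div_right (c := a l) hBB
          ext n; simp only [mem_Icc, mem_filter]; omega
        rw [h4, sum_filter]
        apply sum_congr rfl
        intro n _
        split_ifs <;> simp
      rw [h3]
      refine (hg l).trans ?_
      exact_mod_cast hBB)
  refine le_trans ?_ h2
  apply Nat.cast_le.2
  apply card_le_card
  intro m hm
  rw [mem_filter] at hm ⊢
  refine ⟨hm.1, fun hcon => hm.2 fun l X hX => ?_⟩
  have h3 := hcon l X (hX.trans hBB)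
  have h4 : ∑ n ∈ Icc 1 X, (if n ≤ B * N / a l then g l n else 0) * exI f (a l * n + s m) =
      ∑ n ∈ Icc 1 X, g l n * exI f (a l * n + s m) := by
    apply sum_congr rfl
    intro n hn
    rw [mem_Icc] at hn
    rw [if_pos]
    rw [Nat.le_div_iff_mul_le (ha l), mul_comm]
    exact (Nat.mul_le_mul_left _ hn.2).trans hX
  rw [h4] at h3
  exact h3

/-- from families to the values of one polynomial -/
theorem poly_of_good_u (B L : ℕ) (P : ℤ[X]) (hd : 1 ≤ P.natDegree) :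
    ∃ p0 A0 : ℕ, 1 ≤ p0 ∧ ∀ p : ℕ, p0 ≤ p → ∀ A : ℕ, A0 ≤ A → ∀ ε δ0 : ℝ, 0 < ε → 0 < δ0 → ∃ N1 : ℕ, ∀ (f : ℕ → ℂ) (N : ℕ),
      N1 ≤ N → GoodF f (B + A * B) L p ε δ0 N → PolyG f B L P ε (δ0 / 2) N := by
  classical
  obtain ⟨p0, C1, hC1, h1⟩ := energy_poly' P hd
  obtain ⟨A0, hA0⟩ := poly_size P
  refine ⟨p0 + 1, A0, by omega, fun p hp A hAA ε δ0 hε hδ0 => ?_⟩
  have hA : ∀ x : ℕ, 1 ≤ x → ∀ m ∈ Icc 1 x, |P.eval (m : ℤ)| ≤ A * (x : ℤ) ^ P.natDegree := by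
    intro x hx m hm
    refine (hA0 x hx m hm).trans ?_
    apply mul_le_mul_of_nonneg_right _ (by positivity)
    exact_mod_cast hAA
  obtain ⟨N1, hN1⟩ := exists_nat_ge (C1 ^ (1 / (δ0 / 2)))
  refine ⟨N1 + 1, fun f N hN hG => ?_⟩
  replace hG : GoodF f (B + A * B) L p0 ε δ0 N := good_order (by omega) hG
  have hNn : 1 ≤ N := by omega
  have hN1r : (1 : ℝ) ≤ N := by exact_mod_cast hNn
  have hN0 : (0 : ℝ) < N := by linarith
  intro x hx1 hx2 c hc a g ha hg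
  have hx : 1 ≤ x := by
    by_contra hcon
    have : x = 0 := by omega
    subst this
    rw [Nat.cast_zero, zero_pow (by omega)] at hx2
    have : 0 < (N : ℝ) ^ (1 - δ0 / 2) := by positivity
    linarith
  have hx0 : (0 : ℝ) < x := by exact_mod_cast hx
  have hsz : ∀ m ∈ Icc 1 x, |c + P.eval (m : ℤ)| ≤ ((B + A * B : ℕ) : ℤ) * N := by
    intro m hm
    refine (abs_add_le _ _).trans ?_
    have h3 := hA x hx m hm
    have h4 : (x : ℤ) ^ P.natDegree ≤ B * N := by exact_mod_cast hx1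
    push_cast
    calc |c| + |eval (m : ℤ) P| ≤ B * N + A * (B * N) := by
          apply add_le_add hc (h3.trans _)
          exact mul_le_mul_of_nonneg_left h4 (by positivity)
      _ = (B + A * B) * N := by ring
  have hCN : C1 ≤ (N : ℝ) ^ (δ0 / 2) := by
    have h2 : C1 ^ (1 / (δ0 / 2)) ≤ (N : ℝ) := hN1.trans (by exact_mod_cast (by omega : N1 ≤ N))
    have h3 := Real.rpow_le_rpow (by positivity) h2 (by positivity : 0 ≤ δ0 / 2)
    rw [← Real.rpow_mul hC1.le] at h3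
    have h4 : 1 / (δ0 / 2) * (δ0 / 2) = 1 := by field_simp
    rwa [h4, Real.rpow_one] at h3
  have hen : (energy p0 x (fun m => c + P.eval (m : ℤ)) : ℝ) * N ≤ (N : ℝ) ^ δ0 * (x : ℝ) ^ (2 * p0) := by
    have h3 := h1 x hx c
    have h4 : (N : ℝ) ≤ (N : ℝ) ^ (δ0 / 2) * (x : ℝ) ^ P.natDegree := by
      have h5 : (N : ℝ) = (N : ℝ) ^ (δ0 / 2) * (N : ℝ) ^ (1 - δ0 / 2) := by
        rw [← Real.rpow_add hN0]; simp
      calc (N : ℝ) = (N : ℝ) ^ (δ0 / 2) * (N : ℝ) ^ (1 - δ0 / 2) := h5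
        _ ≤ _ := mul_le_mul_of_nonneg_left hx2 (by positivity)
    have h6 : (N : ℝ) ^ δ0 = (N : ℝ) ^ (δ0 / 2) * (N : ℝ) ^ (δ0 / 2) := by
      rw [← Real.rpow_add hN0]; congr 1; ring
    calc (energy p0 x (fun m => c + P.eval (m : ℤ)) : ℝ) * N ≤
          (energy p0 x (fun m => c + P.eval (m : ℤ)) : ℝ) * ((N : ℝ) ^ (δ0 / 2) * (x : ℝ) ^ P.natDegree) :=
          mul_le_mul_of_nonneg_left h4 (Nat.cast_nonneg _)
      _ = (N : ℝ) ^ (δ0 / 2) * ((energy p0 x (fun m => c + P.eval (m : ℤ)) : ℝ) * (x : ℝ) ^ P.natDegree) := by ring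
      _ ≤ (N : ℝ) ^ (δ0 / 2) * (C1 * (x : ℝ) ^ (2 * p0)) := mul_le_mul_of_nonneg_left h3 (by positivity)
      _ ≤ (N : ℝ) ^ (δ0 / 2) * ((N : ℝ) ^ (δ0 / 2) * (x : ℝ) ^ (2 * p0)) := by
          apply mul_le_mul_of_nonneg_left _ (by positivity)
          exact mul_le_mul_of_nonneg_right hCN (by positivity)
      _ = _ := by rw [h6]; ring
  have hBB : B * N ≤ (B + A * B) * N := Nat.mul_le_mul_right _ (by omega)
  have h2 := hG x (fun m => c + P.eval (m : ℤ)) hsz hen a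
    (fun l n => if n ≤ B * N / a l then g l n else 0) ha (by
      intro l
      have h3 : ∑ n ∈ Icc 1 ((B + A * B) * N / a l), ‖(if n ≤ B * N / a l then g l n else 0)‖ ^ 2 =
          ∑ n ∈ Icc 1 (B * N / a l), ‖g l n‖ ^ 2 := by
        have h4 : Icc 1 (B * N / a l) = (Icc 1 ((B + A * B) * N / a l)).filter (fun n => n ≤ B * N / a l) := by
          have := Nat.div_le_div_right (c := a l) hBB
          ext n; simp only [mem_Icc, mem_filter]; omega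
        rw [h4, sum_filter]
        apply sum_congr rfl
        intro n _
        split_ifs <;> simp
      rw [h3]
      refine (hg l).trans ?_
      exact_mod_cast hBB)
  refine le_trans ?_ (h2.trans ?_)
  · apply Nat.cast_le.2
    apply card_le_card
    intro m hm
    rw [mem_filter] at hm ⊢
    refine ⟨hm.1, fun hcon => hm.2 fun l X hX => ?_⟩
    have h3 := hcon l X (hX.trans hBB)
    have h4 : ∑ n ∈ Icc 1 X, (if n ≤ B * N / a l then g l n else 0) *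
        exI f (a l * n + (c + P.eval (m : ℤ))) =
        ∑ n ∈ Icc 1 X, g l n * exI f (a l * n + (c + P.eval (m : ℤ))) := by
      apply sum_congr rfl
      intro n hn
      rw [mem_Icc] at hn
      rw [if_pos]
      rw [Nat.le_div_iff_mul_le (ha l), mul_comm]
      exact (Nat.mul_le_mul_left _ hn.2).trans hX
    rw [h4] at h3
    exact h3
  · apply mul_le_mul_of_nonneg_left _ (by positivity)
    exact Real.rpow_le_rpow_of_exponent_le hN1r (by linarith)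

lemma poly_monoB {f : ℕ → ℂ} {B B' L : ℕ} {P : ℤ[X]} {ε δ : ℝ} {N : ℕ} (hB : B ≤ B') (hG : PolyG f B' L P ε δ N) :
    PolyG f B L P ε δ N := by
  classical
  intro x hx1 hx2 c hc a g ha hg
  have hBB : B * N ≤ B' * N := Nat.mul_le_mul_right _ hB
  have h2 := hG x (hx1.trans hBB) hx2 c (hc.trans (by exact_mod_cast hBB)) a
    (fun l n => if n ≤ B * N / a l then g l n else 0) ha (by
      intro l
      have h3 : ∑ n ∈ Icc 1 (B' * N / a l), ‖(if n ≤ B * N / a l then g l n else 0)‖ ^ 2 =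
          ∑ n ∈ Icc 1 (B * N / a l), ‖g l n‖ ^ 2 := by
        have h4 : Icc 1 (B * N / a l) = (Icc 1 (B' * N / a l)).filter (fun n => n ≤ B * N / a l) := by
          have := Nat.div_le_div_right (c := a l) hBB
          ext n; simp only [mem_Icc, mem_filter]; omega
        rw [h4, sum_filter]
        apply sum_congr rfl
        intro n _
        split_ifs <;> simp
      rw [h3]
      refine (hg l).trans ?_
      exact_mod_cast hBB)
  refine le_trans ?_ h2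
  apply Nat.cast_le.2
  apply card_le_card
  intro m hm
  rw [mem_filter] at hm ⊢
  refine ⟨hm.1, fun hcon => hm.2 fun l X hX => ?_⟩
  have h3 := hcon l X (hX.trans hBB)
  have h4 : ∑ n ∈ Icc 1 X, (if n ≤ B * N / a l then g l n else 0) * exI f (a l * n + (c + P.eval (m : ℤ))) =
      ∑ n ∈ Icc 1 X, g l n * exI f (a l * n + (c + P.eval (m : ℤ))) := by
    apply sum_congr rfl
    intro n hn
    rw [mem_Icc] at hn
    rw [if_pos]
    rw [Nat.le_div_iff_mul_le (ha l), mul_comm]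
    exact (Nat.mul_le_mul_left _ hn.2).trans hX
  rw [h4] at h3
  exact h3

/-- **families and polynomial values, every scale** -/
theorem all_scales_E (E00 : ℕ) (c : ℝ) (hc : 0 < c) (hc1 : c ≤ 1) (B L p : ℕ) {ι : Type*} [Fintype ι] (P : ι → ℤ[X])
    (hd : ∀ i, 1 ≤ (P i).natDegree) {ε : ℝ} (hε : 0 < ε) :
    ∃ τ1 : ℝ, 0 < τ1 ∧ ∃ E D : ℕ, E00 < E ∧ 6 * E + 2 ≤ D ∧ ∃ δ : ℝ, 0 < δ ∧ ∃ Q0 : ℕ, 3 ≤ Q0 ∧ ∀ Q : ℕ, Q0 ≤ Q →
      ∀ (w f : ℕ → ℂ) (τ : ℝ), 0 ≤ τ → τ ≤ τ1 → Win (Q ^ 6) (Q ^ D) τ w f →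
      NPW c Q (Q ^ 6) (Q ^ (6 * E)) w → ∀ N : ℕ, Q ^ (2 * D) ≤ N → N ≤ Q ^ (2 * D + 1) →
      GoodF f B L p ε δ N ∧ ∀ i, PolyG f B L (P i) ε δ N := by
  classical
  choose p0 A0 hp0 h using fun i => poly_of_good_u B L (P i) (hd i)
  set ε' := min ε 1 with hε'
  have hε'0 : 0 < ε' := lt_min hε one_pos
  obtain ⟨τ1, hτ1, E, D, hE, hD, Q0, hQ03, hQ0⟩ := good_every E00 c hc hc1 (B + (∑ i, A0 i) * B) L (∑ i, p0 i + p + 1)
    (by omega) hε'0 (min_le_right _ _)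
  set δ0 : ℝ := 1 / (4 * (2 * ((∑ i, p0 i + p + 1 : ℕ) : ℝ) + 1) * ((3 * D : ℕ) : ℝ)) with hδ0d
  have hδ0 : 0 < δ0 := by
    have : (0 : ℝ) < ((3 * D : ℕ) : ℝ) := by exact_mod_cast (by omega : 0 < 3 * D)
    positivity
  choose N1 hN1 using fun i => h i (∑ i, p0 i + p + 1)
    (by have := single_le_sum (f := p0) (fun _ _ => Nat.zero_le _) (mem_univ i); omega)
    (∑ i, A0 i) (single_le_sum (f := A0) (fun _ _ => Nat.zero_le _) (mem_univ i)) ε' δ0 hε'0 hδ0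
  refine ⟨τ1, hτ1, E, D, hE, hD, δ0 / 2, by positivity, Q0 + ∑ i, N1 i, by omega,
    fun Q hQ w f τ hτ hττ hf hnp N hN1' hN2 => ?_⟩
  have hG := hQ0 Q (by omega) w f τ hτ hττ hf hnp N hN1' hN2
  have hQN : Q ≤ N := (Nat.le_self_pow (by omega) Q).trans hN1'
  refine ⟨?_, fun i => ?_⟩
  · refine good_anti (by omega) (min_le_left _ _) (by linarith) (good_monoB (by omega) (good_order (by omega) hG))
  · have h1 := hN1 i f N (by
      have := single_le_sum (f := N1) (fun _ _ => Nat.zero_le _) (mem_univ i); omega) hG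
    intro x hx1 hx2 c' hc' a g ha hg
    refine le_trans ?_ (h1 x hx1 hx2 c' hc' a g ha hg)
    apply Nat.cast_le.2
    apply card_le_card
    intro m hm
    rw [mem_filter] at hm ⊢
    refine ⟨hm.1, fun hcon => hm.2 fun l X hX => (hcon l X hX).trans ?_⟩
    exact mul_le_mul_of_nonneg_right (min_le_left _ _) (Nat.cast_nonneg _)

theorem all_scales (c : ℝ) (hc : 0 < c) (hc1 : c ≤ 1) (B L p : ℕ) {ι : Type*} [Fintype ι] (P : ι → ℤ[X])
    (hd : ∀ i, 1 ≤ (P i).natDegree) {ε : ℝ} (hε : 0 < ε) :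
    ∃ τ1 : ℝ, 0 < τ1 ∧ ∃ E D : ℕ, 1 ≤ E ∧ 6 * E + 2 ≤ D ∧ ∃ δ : ℝ, 0 < δ ∧ ∃ Q0 : ℕ, 3 ≤ Q0 ∧ ∀ Q : ℕ, Q0 ≤ Q →
      ∀ (w f : ℕ → ℂ) (τ : ℝ), 0 ≤ τ → τ ≤ τ1 → Win (Q ^ 6) (Q ^ D) τ w f →
      NPW c Q (Q ^ 6) (Q ^ (6 * E)) w → ∀ N : ℕ, Q ^ (2 * D) ≤ N → N ≤ Q ^ (2 * D + 1) →
      GoodF f B L p ε δ N ∧ ∀ i, PolyG f B L (P i) ε δ N :=
  all_scales_E 0 c hc hc1 B L p P hd hε

/-- the integer `Q` of the scale `N` -/
lemma scale_root (D : ℕ) (hD : 1 ≤ D) (Q0 : ℕ) : ∃ N0 : ℕ, ∀ N : ℕ, N0 ≤ N →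
    Q0 ≤ ⌊(N : ℝ) ^ (1 / (2 * D : ℝ))⌋₊ ∧ ⌊(N : ℝ) ^ (1 / (2 * D : ℝ))⌋₊ ^ (2 * D) ≤ N ∧
      N ≤ ⌊(N : ℝ) ^ (1 / (2 * D : ℝ))⌋₊ ^ (2 * D + 1) := by
  refine ⟨(Q0 + 4 ^ D) ^ (2 * D), fun N hN => ?_⟩
  have hD0 : (0 : ℝ) < D := by exact_mod_cast hD
  set r : ℝ := (N : ℝ) ^ (1 / (2 * D : ℝ)) with hr
  have hN0 : (0 : ℝ) ≤ N := Nat.cast_nonneg N
  have hr0 : 0 ≤ r := Real.rpow_nonneg hN0 _
  have hrN : r ^ (2 * D) = N := by
    rw [hr, ← Real.rpow_natCast, ← Real.rpow_mul hN0]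
    push_cast
    rw [one_div_mul_cancel (by positivity), Real.rpow_one]
  have hge : ((Q0 + 4 ^ D : ℕ) : ℝ) ≤ r := by
    have h1 : (((Q0 + 4 ^ D : ℕ) : ℝ)) ^ (2 * D) ≤ r ^ (2 * D) := by
      rw [hrN]; exact_mod_cast hN
    exact le_of_pow_le_pow_left₀ (by omega) hr0 h1
  set Q := ⌊r⌋₊ with hQ
  have hQge : Q0 + 4 ^ D ≤ Q := Nat.le_floor hge
  have hQr : (Q : ℝ) ≤ r := Nat.floor_le hr0
  have hrQ : r < Q + 1 := Nat.lt_floor_add_one r
  have h4 : 1 ≤ 4 ^ D := Nat.one_le_pow _ _ (by norm_num)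
  refine ⟨by omega, ?_, ?_⟩
  · have h1 : (Q : ℝ) ^ (2 * D) ≤ N := by
      rw [← hrN]; exact pow_le_pow_left₀ (Nat.cast_nonneg _) hQr _
    exact_mod_cast h1
  · have h1 : (N : ℝ) ≤ ((Q : ℝ) + 1) ^ (2 * D) := by
      rw [← hrN]; exact pow_le_pow_left₀ hr0 hrQ.le _
    have h2 : ((Q : ℝ) + 1) ^ (2 * D) ≤ (2 * (Q : ℝ)) ^ (2 * D) := by
      apply pow_le_pow_left₀ (by positivity)
      have : (1 : ℝ) ≤ Q := by exact_mod_cast (by omega : 1 ≤ Q)
      linarith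
    have h3 : (2 * (Q : ℝ)) ^ (2 * D) = 4 ^ D * (Q : ℝ) ^ (2 * D) := by
      rw [mul_pow, pow_mul]; norm_num
    have h5 : (4 : ℝ) ^ D * (Q : ℝ) ^ (2 * D) ≤ Q * (Q : ℝ) ^ (2 * D) := by
      apply mul_le_mul_of_nonneg_right _ (by positivity)
      exact_mod_cast (by omega : 4 ^ D ≤ Q)
    have h6 : (N : ℝ) ≤ (Q : ℝ) ^ (2 * D + 1) := by
      rw [pow_succ']; linarith
    exact_mod_cast h6

end Pool.Agent.TH823.EL
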