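import Pool.Agent.TH823.PS.CharSum
import Pool.Agent.W66.LC

set_option autoImplicit false

/-!
# Two-sided bounds for the sums of complex characters over primes
-/

open Finset MeasureTheory
open scoped Real

namespace Pool.Agent.TH823.EL

open Pool.Agent.TH823.PS Pool.Agent.W66 Pool.Agent.W66L
open Metric (closedBall mem_closedBall)

/-- the logarithmic derivative close to the line one, complex characters -/
theorem DX_lin : ∃ C : ℝ, 0 < C ∧ ∀ (q : ℕ) [NeZero q] (χ : DirichletCharacter ℂ q), χ ^ 2 ≠ 1 →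
    ∀ t σ : ℝ, 1 < σ → σ ≤ 1 + 1 / lq q t → ‖DX χ ⟨σ, t⟩‖ ≤ C * lq q t := by
  obtain ⟨c, hc, hc1, hzf⟩ := zfl
  obtain ⟨K1, hK1pos, hball⟩ := LF_const
  obtain ⟨A, hA, hfar⟩ := DX_far
  refine ⟨A + (1 + 2 / c) * (A + K1) + 2 * K1, by positivity, fun q _ χ hχ2 t σ h1 h2 => ?_⟩
  have hχ : χ ≠ 1 := by
    rintro rfl
    exact hχ2 (one_pow 2)
  set ℓ := lq q t with hℓd
  have hℓ : 1 ≤ ℓ := one_le_lq q t
  have hℓ0 : 0 < ℓ := by linarith
  set σ0 : ℝ := 1 + 1 / ℓ with hσ0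
  have h1ℓ : 0 < 1 / ℓ := by positivity
  have h1ℓ1 : 1 / ℓ ≤ 1 := by rw [div_le_one hℓ0]; exact hℓ
  obtain ⟨M, hM1, hMb, -, hbd⟩ := hball q χ hχ t
  have hcc : χ.LFunction ⟨2, t⟩ ≠ 0 := LF_ne_zero hχ (by norm_num)
  have hcb : ‖χ.LFunction ⟨2, t⟩‖ ≤ M := hMb _ (Metric.mem_closedBall_self (by norm_num))
  obtain ⟨s, hs1, hs2, hs3⟩ := landau_re (f := χ.LFunction) (c := ⟨2, t⟩) (r := 3 / 2)
    (r1 := 11 / 8) (r2 := 9 / 8) (R := 7 / 4) (M := M) (by norm_num) (by norm_num) (by norm_num)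
    (by norm_num) (by norm_num) hM1 hcb
    (fun z _ => (DirichletCharacter.differentiable_LFunction hχ).analyticAt z) hcc hMb
  have hz : ∀ x : ℝ, 1 < x → x ≤ 2 → (⟨x, t⟩ : ℂ) ∈ closedBall (⟨2, t⟩ : ℂ) (9 / 8) := by
    intro x hx1 hx2
    rw [mem_closedBall, dist_eq_norm]
    have e : (⟨x, t⟩ : ℂ) - ⟨2, t⟩ = ((x - 2 : ℝ) : ℂ) := by
      apply Complex.ext <;> simp
    rw [e, Complex.norm_real, Real.norm_eq_abs, abs_le]
    constructor <;> linarith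
  have hre : ∀ ρ ∈ s, ρ.re ≤ 1 - c / (2 * ℓ) := by
    intro ρ hρ
    have g1 := hzf q χ hχ2 ρ (hs1 ρ hρ).2
    have g2 := (hs1 ρ hρ).1
    rw [mem_closedBall, dist_eq_norm] at g2
    have g3 := (Complex.abs_im_le_norm (ρ - ⟨2, t⟩)).trans g2
    simp only [Complex.sub_im] at g3
    have g4 : lq q ρ.im ≤ 2 * lq q t := lq_near (by linarith)
    have g5 : 0 < lq q ρ.im := by linarith [one_le_lq q ρ.im]
    have g6 : c / (2 * ℓ) ≤ c / lq q ρ.im := div_le_div_of_nonneg_left hc.le g5 g4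
    linarith
  have hc2 : 0 < c / (2 * ℓ) := by positivity
  have hzne : ∀ x : ℝ, 1 < x → ∀ ρ ∈ s, (⟨x, t⟩ : ℂ) ≠ ρ := by
    intro x hx ρ hρ he
    have := hre ρ hρ
    rw [← he] at this
    simp only at this
    linarith
  have m1 := (hs3 _ (hz σ h1 (by linarith)) (hzne σ h1)).trans hbd
  have m0 := (hs3 _ (hz σ0 (by linarith) (by linarith)) (hzne σ0 (by linarith))).trans hbd
  set S1 := (s.map (fun ρ => 1 / ((⟨σ, t⟩ : ℂ) - ρ))).sum with hS1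
  set S0 := (s.map (fun ρ => 1 / ((⟨σ0, t⟩ : ℂ) - ρ))).sum with hS0
  -- comparison of the sums
  have hcmp : ∀ m : Multiset ℂ, (∀ ρ ∈ m, ρ.re ≤ 1 - c / (2 * ℓ)) →
      ‖(m.map (fun ρ => 1 / ((⟨σ, t⟩ : ℂ) - ρ))).sum - (m.map (fun ρ => 1 / ((⟨σ0, t⟩ : ℂ) - ρ))).sum‖ ≤
        (1 + 2 / c) * ((m.map (fun ρ => 1 / ((⟨σ0, t⟩ : ℂ) - ρ))).sum).re := by
    intro m
    induction m using Multiset.induction_on with
    | empty => intro _; simp
    | cons a m ih =>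
      intro h
      have ha := h a (Multiset.mem_cons_self a m)
      have i1 := ih fun ρ hρ => h ρ (Multiset.mem_cons_of_mem hρ)
      simp only [Multiset.map_cons, Multiset.sum_cons, Complex.add_re]
      set u : ℂ := (⟨σ, t⟩ : ℂ) - a with hu
      set v : ℂ := (⟨σ0, t⟩ : ℂ) - a with hv
      have hure : c / (2 * ℓ) ≤ u.re := by
        rw [hu, Complex.sub_re]; simp only; linarith
      have hvre : 1 / ℓ ≤ v.re := by
        rw [hv, Complex.sub_re]; simp only; linarith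
      have hun : c / (2 * ℓ) ≤ ‖u‖ := hure.trans ((le_abs_self _).trans (Complex.abs_re_le_norm u))
      have hvn : 1 / ℓ ≤ ‖v‖ := hvre.trans ((le_abs_self _).trans (Complex.abs_re_le_norm v))
      have hun0 : 0 < ‖u‖ := by linarith
      have hvn0 : 0 < ‖v‖ := by linarith
      have hu0 : u ≠ 0 := norm_pos_iff.1 hun0
      have hv0 : v ≠ 0 := norm_pos_iff.1 hvn0
      have hvu : v - u = ((σ0 - σ : ℝ) : ℂ) := by
        rw [hu, hv]; apply Complex.ext <;> simp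
      have hvun : ‖v - u‖ ≤ 1 / ℓ := by
        rw [hvu, Complex.norm_real, Real.norm_eq_abs, abs_le]
        constructor <;> linarith
      have hvle : ‖v‖ ≤ (1 + 2 / c) * ‖u‖ := by
        have g1 : ‖v‖ ≤ ‖v - u‖ + ‖u‖ := by
          have := norm_add_le (v - u) u
          rwa [sub_add_cancel] at this
        have g2 : 1 / ℓ = 2 / c * (c / (2 * ℓ)) := by field_simp
        have g3 := mul_le_mul_of_nonneg_left hun (by positivity : 0 ≤ 2 / c)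
        linarith
      have hd : ‖1 / u - 1 / v‖ ≤ (1 + 2 / c) * (1 / v).re := by
        have e1 : 1 / u - 1 / v = (v - u) / (u * v) := by field_simp
        have e2 : (1 / v).re = v.re / ‖v‖ ^ 2 := by
          rw [one_div, Complex.inv_re, Complex.normSq_eq_norm_sq]
        rw [e1, e2, norm_div, norm_mul]
        calc ‖v - u‖ / (‖u‖ * ‖v‖) ≤ (1 / ℓ) / (‖u‖ * ‖v‖) :=
              div_le_div_of_nonneg_right hvun (by positivity)
          _ ≤ (1 / ℓ) * (1 + 2 / c) / (‖v‖ ^ 2) := by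
              rw [div_le_div_iff₀ (by positivity) (by positivity)]
              have g1 := mul_le_mul_of_nonneg_right hvle hvn0.le
              have g2 := mul_le_mul_of_nonneg_left g1 (by positivity : 0 ≤ 1 / ℓ)
              calc 1 / ℓ * ‖v‖ ^ 2 = 1 / ℓ * (‖v‖ * ‖v‖) := by ring
                _ ≤ 1 / ℓ * ((1 + 2 / c) * ‖u‖ * ‖v‖) := g2
                _ = _ := by ring
          _ ≤ v.re * (1 + 2 / c) / (‖v‖ ^ 2) := by
              apply div_le_div_of_nonneg_right _ (by positivity)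
              exact mul_le_mul_of_nonneg_right hvre (by positivity)
          _ = (1 + 2 / c) * (v.re / ‖v‖ ^ 2) := by ring
      have e3 : (1 / u + (m.map (fun ρ => 1 / ((⟨σ, t⟩ : ℂ) - ρ))).sum) -
          (1 / v + (m.map (fun ρ => 1 / ((⟨σ0, t⟩ : ℂ) - ρ))).sum) = (1 / u - 1 / v) +
          ((m.map (fun ρ => 1 / ((⟨σ, t⟩ : ℂ) - ρ))).sum -
            (m.map (fun ρ => 1 / ((⟨σ0, t⟩ : ℂ) - ρ))).sum) := by ring
      rw [e3]
      refine (norm_add_le _ _).trans ?_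
      rw [mul_add]
      exact add_le_add hd i1
  have hc3 := hcmp s hre
  rw [← hS1, ← hS0] at hc3
  have hf0 : ‖DX χ ⟨σ0, t⟩‖ ≤ A * ℓ := by
    have := hfar q χ hχ ⟨σ0, t⟩ (by simp only; linarith) (by simp only; linarith)
    refine this.trans (le_of_eq ?_)
    simp only [hσ0]
    field_simp
    ring
  have hS0re : S0.re ≤ A * ℓ + K1 * ℓ := by
    have g1 : S0.re ≤ ‖S0‖ := Complex.re_le_norm S0
    have g2 : ‖S0‖ ≤ ‖DX χ ⟨σ0, t⟩‖ + ‖DX χ ⟨σ0, t⟩ - S0‖ := by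
      have := norm_sub_le (DX χ ⟨σ0, t⟩) (DX χ ⟨σ0, t⟩ - S0)
      rwa [sub_sub_cancel] at this
    have g3 : ‖DX χ ⟨σ0, t⟩ - S0‖ ≤ K1 * ℓ := m0
    linarith
  have g4 : ‖DX χ ⟨σ, t⟩ - S1‖ ≤ K1 * ℓ := m1
  have g5 : ‖DX χ ⟨σ0, t⟩ - S0‖ ≤ K1 * ℓ := m0
  have g6 : DX χ ⟨σ, t⟩ = (DX χ ⟨σ, t⟩ - S1) + (S1 - S0) + (S0 - DX χ ⟨σ0, t⟩) + DX χ ⟨σ0, t⟩ := by ring
  rw [g6]
  have g7 : ‖S0 - DX χ ⟨σ0, t⟩‖ ≤ K1 * ℓ := by rw [norm_sub_rev]; exact g5
  have g8 := mul_le_mul_of_nonneg_left hS0re (by positivity : 0 ≤ 1 + 2 / c)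
  calc _ ≤ ‖(DX χ ⟨σ, t⟩ - S1) + (S1 - S0) + (S0 - DX χ ⟨σ0, t⟩)‖ + ‖DX χ ⟨σ0, t⟩‖ := norm_add_le _ _
    _ ≤ ‖(DX χ ⟨σ, t⟩ - S1) + (S1 - S0)‖ + ‖S0 - DX χ ⟨σ0, t⟩‖ + ‖DX χ ⟨σ0, t⟩‖ := by
        have := norm_add_le ((DX χ ⟨σ, t⟩ - S1) + (S1 - S0)) (S0 - DX χ ⟨σ0, t⟩)
        linarith
    _ ≤ ‖DX χ ⟨σ, t⟩ - S1‖ + ‖S1 - S0‖ + ‖S0 - DX χ ⟨σ0, t⟩‖ + ‖DX χ ⟨σ0, t⟩‖ := by
        have := norm_add_le (DX χ ⟨σ, t⟩ - S1) (S1 - S0)
        linarith
    _ ≤ K1 * ℓ + (1 + 2 / c) * (A * ℓ + K1 * ℓ) + K1 * ℓ + A * ℓ := by linarith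
    _ = (A + (1 + 2 / c) * (A + K1) + 2 * K1) * ℓ := by ring

/-- the series with a complex factor -/
lemma tsum_wct {q : ℕ} (χ : DirichletCharacter ℂ q) {σ : ℝ} (hσ : 1 < σ) (t : ℝ) (w : ℂ) :
    (∑' n : ℕ, (w * ct χ t n).re * ArithmeticFunction.vonMangoldt n * (n : ℝ) ^ (-σ)) =
      (w * LSeries ((fun n : ℕ => (χ n : ℂ)) * (fun n : ℕ => (ArithmeticFunction.vonMangoldt n : ℂ)))
        (⟨σ, t⟩ : ℂ)).re := by
  have h2 := Complex.hasSum_re ((ct_summable χ hσ t).hasSum.mul_left w)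
  refine HasSum.tsum_eq ?_
  unfold LSeries
  convert h2 using 1
  ext n
  rcases eq_or_ne n 0 with rfl | hn
  · simp
  · have hn0 : (0 : ℝ) < n := by exact_mod_cast Nat.pos_of_ne_zero hn
    have hnc : (n : ℂ) ≠ 0 := by exact_mod_cast hn
    rw [LSeries.term_of_ne_zero hn]
    have h1 : (n : ℂ) ^ (⟨σ, t⟩ : ℂ) =
        (((n : ℝ) ^ σ : ℝ) : ℂ) * Complex.exp (((t * Real.log n : ℝ) : ℂ) * Complex.I) := by
      have e : (⟨σ, t⟩ : ℂ) = (σ : ℂ) + (t : ℂ) * Complex.I := by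
        apply Complex.ext <;> simp
      rw [e, Complex.cpow_add _ _ hnc, Complex.ofReal_cpow hn0.le, Complex.ofReal_natCast]
      congr 1
      rw [Complex.cpow_def_of_ne_zero hnc, ← Complex.natCast_log]
      congr 1
      push_cast
      ring
    have h2 : (((fun n : ℕ => (χ n : ℂ)) * (fun n : ℕ => (ArithmeticFunction.vonMangoldt n : ℂ))) n) /
        (n : ℂ) ^ (⟨σ, t⟩ : ℂ) = ct χ t n * ((ArithmeticFunction.vonMangoldt n * (n : ℝ) ^ (-σ) : ℝ) : ℂ) := by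
      rw [h1, Pi.mul_apply]
      unfold ct
      rw [Real.rpow_neg hn0.le, Complex.exp_neg]
      have h3 := Complex.exp_ne_zero (((t * Real.log n : ℝ) : ℂ) * Complex.I)
      have h4 : (((n : ℝ) ^ σ : ℝ) : ℂ) ≠ 0 := by
        rw [Complex.ofReal_ne_zero]
        exact (Real.rpow_pos_of_pos hn0 σ).ne'
      push_cast at h4 ⊢
      field_simp
    rw [h2, ← mul_assoc, Complex.re_mul_ofReal]
    ring

/-- **two-sided bound for complex characters** -/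
theorem two_np : ∃ C : ℝ, 0 < C ∧ ∀ (q : ℕ) [NeZero q] (χ : DirichletCharacter ℂ q), χ ^ 2 ≠ 1 →
    ∀ t : ℝ, ∀ y z : ℕ, 3 ≤ y → y ≤ z → lq q t ≤ Real.log y → ∀ w : ℂ, ‖w‖ ≤ 1 →
    ∑ p ∈ PP y z, (w * ct χ t p).re / p ≤ C := by
  obtain ⟨K, hK, hD⟩ := DX_lin
  obtain ⟨C, hC, hS⟩ := prime_sum
  refine ⟨K + C, by positivity, fun q _ χ hχ2 t y z hy hyz hlq w hw => ?_⟩
  have hχ : χ ≠ 1 := by
    rintro rfl
    exact hχ2 (one_pow 2)
  have hl1 := log_ge_one hy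
  have hlyz : Real.log y ≤ Real.log z := Real.log_le_log (by positivity) (by exact_mod_cast hyz)
  have hℓ := one_le_lq q t
  have h0 : 0 < lq q t := by linarith
  have h1 := hS (fun n => (w * ct χ t n).re) (fun n => by
      refine (Complex.abs_re_le_norm _).trans ?_
      rw [norm_mul]
      exact mul_le_one₀ hw (norm_nonneg _) (norm_ct_le χ t n)) y z hy hyz (K * lq q t) (by positivity) (by
    intro σ hσ1 hσ2
    have hσ : 1 < σ := by
      have : 0 < 1 / Real.log z := one_div_pos.2 (by linarith)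
      linarith
    have hσ' : σ ≤ 1 + 1 / lq q t := by
      have : 1 / Real.log y ≤ 1 / lq q t := one_div_le_one_div_of_le h0 hlq
      linarith
    rw [tsum_wct χ hσ t w, LSeries_eq_DL χ hχ (by exact hσ)]
    refine (Complex.re_le_norm _).trans ?_
    rw [norm_mul, norm_neg]
    calc ‖w‖ * ‖deriv χ.LFunction ⟨σ, t⟩ / χ.LFunction ⟨σ, t⟩‖ ≤
          1 * ‖deriv χ.LFunction ⟨σ, t⟩ / χ.LFunction ⟨σ, t⟩‖ :=
          mul_le_mul_of_nonneg_right hw (norm_nonneg _)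
      _ = ‖DX χ ⟨σ, t⟩‖ := by rw [one_mul]; rfl
      _ ≤ _ := hD q χ hχ2 t σ hσ hσ')
  refine h1.trans ?_
  have : K * lq q t / Real.log y ≤ K := by
    rw [div_le_iff₀ (by linarith)]
    exact mul_le_mul_of_nonneg_left hlq hK.le
  linarith

end Pool.Agent.TH823.EL
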