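import Pool.Agent.TH823.PS.Energy

set_option autoImplicit false

/-!
# Functions with a multiplicativity relation at the primes of a window
-/

open Finset MeasureTheory
open scoped Real
open Pool.Agent.Helper112

namespace Pool.Agent.TH823.EL

open Pool.Agent.TH823.PS Pool.Agent.W66 Pool.Agent.W66L

/-- bounded functions with `f (p n)` within `τ` of `w p * f n` for the primes `p` in `(y, z]` not dividing `n` -/
structure Win (y z : ℕ) (τ : ℝ) (w f : ℕ → ℂ) : Prop where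
  bd : ∀ n, ‖f n‖ ≤ 1
  wd : ∀ p, ‖w p‖ ≤ 1
  mul : ∀ p n : ℕ, p.Prime → y < p → p ≤ z → ¬ p ∣ n → ‖f (p * n) - w p * f n‖ ≤ τ

lemma gco_bound {f w : ℕ → ℂ} {τ : ℝ} {y z y' z' M N k : ℕ} (hf : Win y z τ w f) (hτ : 0 ≤ τ) (hτ1 : τ ≤ 1)
    (hy : y ≤ y') (hz' : z' ≤ z) (hz : 0 < z') (hk : 1 ≤ k) :
    (k : ℝ) * ‖gco (WP (PP y' z')) (PP y' z') (fun p => w p / p) (Ioc M N) (fun n => f n / n) k‖ ≤
      2 * |om (PP y' z') k - WP (PP y' z')| + 2 * sq2 (PP y' z') k + 2 * WP (PP y' z') * bdr M z' N k +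
        τ * WP (PP y' z') := by
  set P := PP y' z' with hP
  set W := WP P with hW
  have hW0 : 0 ≤ W := WP_nonneg P
  have hkc : (k : ℂ) ≠ 0 := by exact_mod_cast (by omega : k ≠ 0)
  have e1 : (k : ℂ) * gco W P (fun p => w p / p) (Ioc M N) (fun n => f n / n) k =
      (if k ∈ Ioc M N then (W : ℂ) * f k else 0) -
        ∑ p ∈ P, if p ∣ k ∧ k / p ∈ Ioc M N then w p * f (k / p) else 0 := by
    unfold gco
    rw [mul_sub, mul_sum]
    congr 1
    · split_ifs
      · field_simp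
      · ring
    · apply sum_congr rfl
      intro p hp
      rw [hP, mem_PP] at hp
      split_ifs with h1
      · have hpc : (p : ℂ) ≠ 0 := by exact_mod_cast hp.2.ne_zero
        have hkp : ((k / p : ℕ) : ℂ) ≠ 0 := by
          have := (mem_Ioc.1 h1.2).1
          exact_mod_cast (by omega : k / p ≠ 0)
        have h2 : (k : ℂ) = p * ((k / p : ℕ) : ℂ) := by
          exact_mod_cast (Nat.mul_div_cancel' h1.1).symm
        rw [h2]
        have h3 : p * (k / p) / p = k / p := by rw [Nat.mul_div_cancel_left _ hp.2.pos]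
        field_simp
      · ring
  have e2 : (k : ℝ) * ‖gco W P (fun p => w p / p) (Ioc M N) (fun n => f n / n) k‖ =
      ‖(if k ∈ Ioc M N then (W : ℂ) * f k else 0) -
        ∑ p ∈ P, if p ∣ k ∧ k / p ∈ Ioc M N then w p * f (k / p) else 0‖ := by
    rw [← e1, norm_mul, Complex.norm_natCast]
  rw [e2]
  have hsq0 : 0 ≤ sq2 P k := by
    unfold sq2; exact sum_nonneg fun p _ => by split_ifs <;> norm_num
  have hwf : ∀ p n, ‖w p * f n‖ ≤ 1 := fun p n => by
    rw [norm_mul]; exact mul_le_one₀ (hf.wd p) (norm_nonneg _) (hf.bd n)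
  have habs := abs_nonneg (om P k - W)
  have hτW : 0 ≤ τ * W := by positivity
  by_cases hb : k ≤ M * z' ∨ N < k
  · have h1 : ‖(if k ∈ Ioc M N then (W : ℂ) * f k else 0)‖ ≤ W := by
      split_ifs
      · rw [norm_mul, Complex.norm_real, Real.norm_of_nonneg hW0]
        exact mul_le_of_le_one_right hW0 (hf.bd k)
      · rw [norm_zero]; exact hW0
    have h2 : ‖∑ p ∈ P, (if p ∣ k ∧ k / p ∈ Ioc M N then w p * f (k / p) else 0)‖ ≤ om P k := by
      unfold om
      refine (norm_sum_le _ _).trans (sum_le_sum fun p _ => ?_)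
      by_cases h3 : p ∣ k
      · rw [if_pos h3]
        split_ifs
        · exact hwf _ _
        · rw [norm_zero]; exact zero_le_one
      · rw [if_neg h3, if_neg (fun h => h3 h.1), norm_zero]
    unfold bdr
    rw [if_pos hb]
    have h3 := norm_sub_le (if k ∈ Ioc M N then (W : ℂ) * f k else 0)
      (∑ p ∈ P, (if p ∣ k ∧ k / p ∈ Ioc M N then w p * f (k / p) else 0))
    have h4 := le_abs_self (om P k - W)
    linarith
  · have hb' := hb
    push Not at hb'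
    unfold bdr
    rw [if_neg hb, mul_zero, add_zero]
    have hMk : M < k := lt_of_le_of_lt (Nat.le_mul_of_pos_right M hz) hb'.1
    rw [if_pos (mem_Ioc.2 ⟨hMk, hb'.2⟩)]
    have e3 : ∑ p ∈ P, (if p ∣ k ∧ k / p ∈ Ioc M N then w p * f (k / p) else 0) =
        f k * (om P k : ℂ) - ∑ p ∈ P, (if p ∣ k then f k - w p * f (k / p) else 0) := by
      unfold om
      rw [Complex.ofReal_sum, mul_sum, ← sum_sub_distrib]
      apply sum_congr rfl
      intro p hp
      rw [hP, mem_PP] at hp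
      by_cases h3 : p ∣ k
      · have h4 : k / p ∈ Ioc M N := by
          rw [mem_Ioc]
          refine ⟨?_, (Nat.div_le_self _ _).trans hb'.2⟩
          rw [Nat.lt_div_iff_mul_lt_of_dvd hp.2.ne_zero h3]
          exact lt_of_le_of_lt (Nat.mul_le_mul_left M hp.1.2) hb'.1
        rw [if_pos ⟨h3, h4⟩, if_pos h3, if_pos h3]
        push_cast
        ring
      · rw [if_neg (fun h => h3 h.1), if_neg h3, if_neg h3]
        simp
    rw [e3]
    have e4 : (W : ℂ) * f k - (f k * (om P k : ℂ) - ∑ p ∈ P, (if p ∣ k then f k - w p * f (k / p) else 0)) =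
        -(f k * ((om P k - W : ℝ) : ℂ)) + ∑ p ∈ P, (if p ∣ k then f k - w p * f (k / p) else 0) := by
      push_cast; ring
    rw [e4]
    refine (norm_add_le _ _).trans ?_
    have h5 : ‖-(f k * ((om P k - W : ℝ) : ℂ))‖ ≤ |om P k - W| := by
      rw [norm_neg, norm_mul, Complex.norm_real, Real.norm_eq_abs]
      exact mul_le_of_le_one_left (abs_nonneg _) (hf.bd k)
    have h6 : ‖∑ p ∈ P, (if p ∣ k then f k - w p * f (k / p) else 0)‖ ≤ 2 * sq2 P k + τ * om P k := by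
      unfold sq2 om
      rw [mul_sum, mul_sum, ← sum_add_distrib]
      refine (norm_sum_le _ _).trans (sum_le_sum fun p hp => ?_)
      rw [hP, mem_PP] at hp
      by_cases h7 : p ^ 2 ∣ k
      · rw [if_pos h7]
        have h8 : 0 ≤ τ * (if p ∣ k then (1 : ℝ) else 0) := by
          apply mul_nonneg hτ; split_ifs <;> norm_num
        have h9 : ‖(if p ∣ k then f k - w p * f (k / p) else 0)‖ ≤ 2 := by
          split_ifs
          · refine (norm_sub_le _ _).trans ?_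
            have := hf.bd k
            have := hwf p (k / p)
            linarith
          · rw [norm_zero]; norm_num
        linarith
      · rw [if_neg h7]
        split_ifs with h8
        · have h9 : ¬ p ∣ k / p := by
            intro h10
            apply h7
            rw [sq, ← Nat.mul_div_cancel' h8]
            exact Nat.mul_dvd_mul_left p h10
          have h10 := hf.mul p (k / p) hp.2 (lt_of_le_of_lt hy hp.1.1) (hp.1.2.trans hz') h9
          rw [Nat.mul_div_cancel' h8] at h10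
          simpa using h10
        · simp
    have h7 : τ * om P k ≤ |om P k - W| + τ * W := by
      have h8 : τ * (om P k - W) ≤ τ * |om P k - W| := mul_le_mul_of_nonneg_left (le_abs_self _) hτ
      have h9 : τ * |om P k - W| ≤ |om P k - W| := mul_le_of_le_one_left habs hτ1
      linarith
    linarith

lemma sq_bound (a b c d : ℝ) :
    (2 * a + 2 * b + 2 * c + d) ^ 2 ≤ 16 * a ^ 2 + 16 * b ^ 2 + 16 * c ^ 2 + 4 * d ^ 2 := by
  nlinarith [sq_nonneg (2 * a - 2 * b), sq_nonneg (2 * a - 2 * c), sq_nonneg (2 * a - d),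
    sq_nonneg (2 * b - 2 * c), sq_nonneg (2 * b - d), sq_nonneg (2 * c - d)]

/-- the square of the coefficient -/
lemma gco_sq {f w : ℕ → ℂ} {τ : ℝ} {y z y' z' M N k : ℕ} (hf : Win y z τ w f) (hτ : 0 ≤ τ) (hτ1 : τ ≤ 1)
    (hy : y ≤ y') (hz' : z' ≤ z) (hz : 0 < z') (hk : 1 ≤ k) :
    ((k : ℝ) * ‖gco (WP (PP y' z')) (PP y' z') (fun p => w p / p) (Ioc M N) (fun n => f n / n) k‖) ^ 2 ≤
      16 * (om (PP y' z') k - WP (PP y' z')) ^ 2 + 16 * sq2 (PP y' z') k ^ 2 +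
        16 * WP (PP y' z') ^ 2 * bdr M z' N k + 4 * (τ * WP (PP y' z')) ^ 2 := by
  have h1 := gco_bound (M := M) (N := N) hf hτ hτ1 hy hz' hz hk
  have hW0 : 0 ≤ WP (PP y' z') := WP_nonneg _
  have hsq0 : 0 ≤ sq2 (PP y' z') k := by
    unfold sq2; exact sum_nonneg fun p _ => by split_ifs <;> norm_num
  have hb0 : 0 ≤ bdr M z' N k := by unfold bdr; split_ifs <;> norm_num
  have hb : bdr M z' N k ^ 2 = bdr M z' N k := by unfold bdr; split_ifs <;> norm_num
  refine (pow_le_pow_left₀ (by positivity) h1 2).trans ?_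
  have h2 := sq_bound |om (PP y' z') k - WP (PP y' z')| (sq2 (PP y' z') k) (WP (PP y' z') * bdr M z' N k)
    (τ * WP (PP y' z'))
  have h3 : |om (PP y' z') k - WP (PP y' z')| ^ 2 = (om (PP y' z') k - WP (PP y' z')) ^ 2 := sq_abs _
  rw [h3, mul_pow (WP (PP y' z')) (bdr M z' N k) 2, hb] at h2
  have e : 2 * |om (PP y' z') k - WP (PP y' z')| + 2 * sq2 (PP y' z') k + 2 * WP (PP y' z') * bdr M z' N k +
        τ * WP (PP y' z') = 2 * |om (PP y' z') k - WP (PP y' z')| + 2 * sq2 (PP y' z') k +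
        2 * (WP (PP y' z') * bdr M z' N k) + τ * WP (PP y' z') := by ring
  rw [e]
  linarith

/-- **the energy after the multiplier** -/
lemma gco_energy {f w : ℕ → ℂ} {τ : ℝ} {y z M N : ℕ} (hf : Win y z τ w f) (hτ : 0 ≤ τ) (hτ1 : τ ≤ 1)
    (hy : 1 ≤ y) (hyz : y ≤ z) (hM : z ≤ M)
    (hMN : M ≤ N) :
    ∑ k ∈ Ioc M (N * z), (k : ℝ) *
      ‖gco (WP (PP y z)) (PP y z) (fun p => w p / p) (Ioc M N) (fun n => f n / n) k‖ ^ 2 ≤
      48 * WP (PP y z) * (2 + Real.log (N * z : ℕ)) + 32 * (1 + Real.log (N * z : ℕ)) +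
        32 * WP (PP y z) ^ 2 * Real.log z + 4 * (τ * WP (PP y z)) ^ 2 * Real.log (N * z : ℕ) := by
  have hPp : ∀ p ∈ PP y z, p.Prime := fun p hp => (mem_PP.1 hp).2
  have hterm' := fun k (hk : 1 ≤ k) => gco_sq (M := M) (N := N) hf hτ hτ1 le_rfl le_rfl (by omega : 0 < z) hk
  set P := PP y z with hP
  set W := WP P with hW
  have hW0 : 0 ≤ W := WP_nonneg P
  have hz0 : 0 < z := by omega
  have hM0 : 1 ≤ M := by omega
  have hNz : M ≤ N * z := hMN.trans (Nat.le_mul_of_pos_right N hz0)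
  have hcard : P.card ≤ M := by
    have h1 : P.card ≤ (Ioc y z).card := by
      rw [hP]; unfold PP; exact card_filter_le _ _
    rw [Nat.card_Ioc] at h1
    omega
  have hterm : ∀ k ∈ Ioc M (N * z), (k : ℝ) *
      ‖gco W P (fun p => w p / p) (Ioc M N) (fun n => f n / n) k‖ ^ 2 ≤
      16 * ((om P k - W) ^ 2 / k) + 16 * (sq2 P k ^ 2 / k) + 16 * W ^ 2 * (bdr M z N k / k) +
        4 * (τ * W) ^ 2 * (1 / k) := by
    intro k hk
    rw [mem_Ioc] at hk
    have hk0 : (0 : ℝ) < k := by exact_mod_cast (by omega : 0 < k)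
    have h1 := hterm' k (by omega)
    have h4 : (k : ℝ) * ‖gco W P (fun p => w p / p) (Ioc M N) (fun n => f n / n) k‖ ^ 2 =
        ((k : ℝ) * ‖gco W P (fun p => w p / p) (Ioc M N) (fun n => f n / n) k‖) ^ 2 / k := by
      field_simp
    rw [h4, div_le_iff₀ hk0]
    have h5 : (16 * ((om P k - W) ^ 2 / k) + 16 * (sq2 P k ^ 2 / k) + 16 * W ^ 2 * (bdr M z N k / k) +
        4 * (τ * W) ^ 2 * (1 / k)) * k =
        16 * (om P k - W) ^ 2 + 16 * sq2 P k ^ 2 + 16 * W ^ 2 * bdr M z N k + 4 * (τ * W) ^ 2 := by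
      field_simp
    rw [h5]
    exact h1
  refine (sum_le_sum hterm).trans ?_
  rw [sum_add_distrib, sum_add_distrib, sum_add_distrib, ← mul_sum, ← mul_sum, ← mul_sum, ← mul_sum]
  have t1 := tk_log hPp hM0 hNz hcard
  have t2 : ∑ k ∈ Ioc M (N * z), sq2 P k ^ 2 / k ≤ 2 * (1 + Real.log (N * z : ℕ)) := by
    refine le_trans ?_ (sq2_log hPp (N * z))
    apply sum_le_sum_of_subset_of_nonneg
    · intro k hk
      rw [mem_Ioc] at hk
      rw [mem_Icc]
      omega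
    · intro _ _ _; positivity
  have t3 : ∑ k ∈ Ioc M (N * z), bdr M z N k / k ≤ 2 * Real.log z := by
    have h1 : ∑ k ∈ Ioc M (N * z), bdr M z N k / k ≤
        ∑ k ∈ Ioc M (M * z), (1 : ℝ) / k + ∑ k ∈ Ioc N (N * z), (1 : ℝ) / k := by
      have h2 : ∑ k ∈ Ioc M (N * z), bdr M z N k / (k : ℝ) =
          ∑ k ∈ (Ioc M (N * z)).filter (fun k => k ≤ M * z ∨ N < k), (1 : ℝ) / k := by
        rw [sum_filter]
        apply sum_congr rfl
        intro k _
        unfold bdr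
        split_ifs <;> simp
      rw [h2]
      have h3 : (Ioc M (N * z)).filter (fun k => k ≤ M * z ∨ N < k) ⊆
          Ioc M (M * z) ∪ Ioc N (N * z) := by
        intro k hk
        rw [mem_filter, mem_Ioc] at hk
        rw [mem_union, mem_Ioc, mem_Ioc]
        rcases hk.2 with h4 | h4
        · exact Or.inl ⟨hk.1.1, h4⟩
        · exact Or.inr ⟨h4, hk.1.2⟩
      refine (sum_le_sum_of_subset_of_nonneg h3 (fun _ _ _ => by positivity)).trans ?_
      rw [← sum_union_inter]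
      have : 0 ≤ ∑ k ∈ Ioc M (M * z) ∩ Ioc N (N * z), (1 : ℝ) / k := sum_nonneg fun _ _ => by positivity
      linarith
    have h2 := harm_le hM0 (Nat.le_mul_of_pos_right M hz0)
    have h3 := harm_le (a := N) (by omega) (Nat.le_mul_of_pos_right N hz0)
    have e1 : (((M * z : ℕ) : ℝ) / M) = z := by
      have : (M : ℝ) ≠ 0 := by exact_mod_cast (by omega : M ≠ 0)
      push_cast; field_simp
    have e2 : (((N * z : ℕ) : ℝ) / N) = z := by
      have : (N : ℝ) ≠ 0 := by exact_mod_cast (by omega : N ≠ 0)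
      push_cast; field_simp
    rw [e1] at h2
    rw [e2] at h3
    linarith
  have t4 : ∑ k ∈ Ioc M (N * z), (1 : ℝ) / k ≤ Real.log (N * z : ℕ) := by
    refine (harm_le hM0 hNz).trans ?_
    apply Real.log_le_log
    · have h1 : (0 : ℝ) < M := by exact_mod_cast hM0
      have h2 : (0 : ℝ) < (N * z : ℕ) := by exact_mod_cast (by omega : 0 < N * z)
      positivity
    · apply div_le_self (by positivity)
      exact_mod_cast hM0
  have hW2 : 0 ≤ 16 * W ^ 2 := by positivity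
  have s3 := mul_le_mul_of_nonneg_left t3 hW2
  have s4 := mul_le_mul_of_nonneg_left t4 (by positivity : 0 ≤ 4 * (τ * W) ^ 2)
  linarith

lemma sq2_sum {P : Finset ℕ} (hP : ∀ p ∈ P, p.Prime) (X : ℕ) :
    ∑ k ∈ Icc 1 X, sq2 P k ^ 2 ≤ 2 * X := by
  have e1 : ∀ k : ℕ, sq2 P k ^ 2 =
      ∑ p ∈ P, ∑ r ∈ P, if (p ^ 2 ∣ k ∧ r ^ 2 ∣ k) then (1 : ℝ) else 0 := by
    intro k
    unfold sq2
    rw [sq, sum_mul_sum]
    apply sum_congr rfl
    intro p _
    apply sum_congr rfl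
    intro r _
    by_cases h1 : p ^ 2 ∣ k <;> by_cases h2 : r ^ 2 ∣ k <;> simp [h1, h2]
  simp only [e1]
  rw [sum_comm]
  have e2 : ∀ p ∈ P, ∑ k ∈ Icc 1 X, ∑ r ∈ P, (if (p ^ 2 ∣ k ∧ r ^ 2 ∣ k) then (1 : ℝ) else 0) ≤
      X * (1 / (p : ℝ) ^ 2) + X * (1 / (p : ℝ) ^ 2) * ∑ r ∈ P, 1 / (r : ℝ) ^ 2 := by
    intro p hp
    rw [sum_comm]
    have hp0 : (0 : ℝ) < p := by exact_mod_cast (hP p hp).pos
    have e3 : ∀ r ∈ P, ∑ k ∈ Icc 1 X, (if (p ^ 2 ∣ k ∧ r ^ 2 ∣ k) then (1 : ℝ) else 0) ≤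
        (if r = p then X * (1 / (p : ℝ) ^ 2) else 0) + X * (1 / (p : ℝ) ^ 2) * (1 / (r : ℝ) ^ 2) := by
      intro r hr
      have hr0 : (0 : ℝ) < r := by exact_mod_cast (hP r hr).pos
      rw [← sum_filter, sum_const, nsmul_eq_mul, mul_one]
      by_cases hrp : r = p
      · rw [if_pos hrp]
        subst hrp
        have h1 : (Icc 1 X).filter (fun k => r ^ 2 ∣ k ∧ r ^ 2 ∣ k) = (Ioc 0 X).filter (fun k => r ^ 2 ∣ k) := by
          ext k; simp only [mem_filter, mem_Icc, mem_Ioc, and_self]; constructor <;> intro h <;> exact ⟨by omega, h.2⟩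
        rw [h1, Nat.Ioc_filter_dvd_card_eq_div]
        have h2 : ((X / r ^ 2 : ℕ) : ℝ) ≤ X * (1 / (r : ℝ) ^ 2) := by
          refine Nat.cast_div_le.trans (le_of_eq ?_)
          push_cast; ring
        have : 0 ≤ (X : ℝ) * (1 / (r : ℝ) ^ 2) * (1 / (r : ℝ) ^ 2) := by positivity
        linarith
      · rw [if_neg hrp, zero_add]
        have hcop : Nat.Coprime (p ^ 2) (r ^ 2) :=
          Nat.Coprime.pow 2 2 ((Nat.coprime_primes (hP p hp) (hP r hr)).2 (fun h => hrp h.symm))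
        have h1 : (Icc 1 X).filter (fun k => p ^ 2 ∣ k ∧ r ^ 2 ∣ k) ⊆
            (Ioc 0 X).filter (fun k => p ^ 2 * r ^ 2 ∣ k) := by
          intro k hk
          rw [mem_filter, mem_Icc] at hk
          rw [mem_filter, mem_Ioc]
          exact ⟨by omega, hcop.mul_dvd_of_dvd_of_dvd hk.2.1 hk.2.2⟩
        have h2 : (((Icc 1 X).filter (fun k => p ^ 2 ∣ k ∧ r ^ 2 ∣ k)).card : ℝ) ≤
            ((X / (p ^ 2 * r ^ 2) : ℕ) : ℝ) := by
          rw [← Nat.Ioc_filter_dvd_card_eq_div]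
          exact_mod_cast card_le_card h1
        refine h2.trans (Nat.cast_div_le.trans (le_of_eq ?_))
        push_cast
        field_simp
    refine (sum_le_sum e3).trans (le_of_eq ?_)
    rw [sum_add_distrib, sum_ite_eq' P p, if_pos hp, mul_sum]
  refine (sum_le_sum e2).trans ?_
  have h1 := sum_inv_sq hP
  have h0 : 0 ≤ ∑ p ∈ P, (1 : ℝ) / (p : ℝ) ^ 2 := sum_nonneg fun _ _ => by positivity
  rw [sum_add_distrib, ← mul_sum]
  have h2 : (∑ p ∈ P, (X : ℝ) * (1 / (p : ℝ) ^ 2) * ∑ r ∈ P, 1 / (r : ℝ) ^ 2) =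
      (X : ℝ) * ((∑ p ∈ P, 1 / (p : ℝ) ^ 2) * ∑ r ∈ P, 1 / (r : ℝ) ^ 2) := by
    rw [sum_mul, mul_sum]
    exact sum_congr rfl fun p _ => by ring
  rw [h2]
  have hX : (0 : ℝ) ≤ X := Nat.cast_nonneg X
  have h3 : (∑ p ∈ P, 1 / (p : ℝ) ^ 2) * ∑ r ∈ P, 1 / (r : ℝ) ^ 2 ≤ 1 := mul_le_one₀ h1 h0 h1
  have h4 := mul_le_mul_of_nonneg_left h1 hX
  have h5 := mul_le_mul_of_nonneg_left h3 hX
  linarith

/-- the sum of the squares of the coefficients, without logarithmic weights -/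
lemma gco_sum_sq {f w : ℕ → ℂ} {τ : ℝ} {y z y' z' M N X : ℕ} (hf : Win y z τ w f) (hτ : 0 ≤ τ) (hτ1 : τ ≤ 1)
    (hy : y ≤ y') (hz' : z' ≤ z) (hz : 0 < z') (hXN : X ≤ N) (hzX : z' ≤ X) :
    ∑ k ∈ Icc 1 X, ((k : ℝ) *
      ‖gco (WP (PP y' z')) (PP y' z') (fun p => w p / p) (Ioc M N) (fun n => f n / n) k‖) ^ 2 ≤
      48 * WP (PP y' z') * X + 32 * X + 16 * WP (PP y' z') ^ 2 * (M * z') +
        4 * (τ * WP (PP y' z')) ^ 2 * X := by
  have hPp : ∀ p ∈ PP y' z', p.Prime := fun p hp => (mem_PP.1 hp).2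
  have hterm := fun k (hk : 1 ≤ k) => gco_sq (M := M) (N := N) hf hτ hτ1 hy hz' hz hk
  set P := PP y' z' with hP
  set W := WP P with hW
  have hW0 : 0 ≤ W := WP_nonneg P
  have hcard : P.card ≤ X := by
    have h1 : P.card ≤ (Ioc y' z').card := by
      rw [hP]; unfold PP; exact card_filter_le _ _
    rw [Nat.card_Ioc] at h1
    omega
  refine (sum_le_sum fun k hk => hterm k (mem_Icc.1 hk).1).trans ?_
  rw [sum_add_distrib, sum_add_distrib, sum_add_distrib, ← mul_sum, ← mul_sum, ← mul_sum, sum_const,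
    Nat.card_Icc, nsmul_eq_mul, Nat.add_sub_cancel]
  have t1 : ∑ k ∈ Icc 1 X, (om P k - W) ^ 2 ≤ 3 * W * X := by
    have h1 := Pool.Agent.Helper480.E25.turan P hPp X
    have h2 : (P.card : ℝ) ≤ X := by exact_mod_cast hcard
    have h3 := mul_le_mul_of_nonneg_left h2 (by positivity : 0 ≤ 2 * W)
    have h4 : ∑ k ∈ Icc 1 X, (om P k - W) ^ 2 ≤ X * W + 2 * W * P.card := h1
    linarith
  have t2 := sq2_sum hPp X
  have t3 : ∑ k ∈ Icc 1 X, bdr M z' N k ≤ M * z' := by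
    have h1 : ∀ k ∈ Icc 1 X, bdr M z' N k = if k ≤ M * z' then 1 else 0 := by
      intro k hk
      rw [mem_Icc] at hk
      unfold bdr
      by_cases h2 : k ≤ M * z'
      · rw [if_pos (Or.inl h2), if_pos h2]
      · rw [if_neg h2, if_neg (by push Not; omega)]
    rw [sum_congr rfl h1, ← sum_filter, sum_const, nsmul_eq_mul, mul_one]
    have h3 : (Icc 1 X).filter (fun k => k ≤ M * z') ⊆ Icc 1 (M * z') := by
      intro k hk; rw [mem_filter, mem_Icc] at hk; rw [mem_Icc]; omega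
    have h4 := card_le_card h3
    rw [Nat.card_Icc, Nat.add_sub_cancel] at h4
    exact_mod_cast h4
  have s3 := mul_le_mul_of_nonneg_left t3 (by positivity : 0 ≤ 16 * W ^ 2)
  linarith

/-- **the multiplier inequality for the fractions with denominator `q`** -/
theorem per_q {q : ℕ} [NeZero q] {W : ℝ} {P S K : Finset ℕ} (w c : ℕ → ℂ)
    (hP : ∀ p ∈ P, 0 < p ∧ p.Coprime q) (hS : ∀ s ∈ S, 0 < s) (hSK : ∀ s ∈ S, s ∈ K)
    (hPK : ∀ s ∈ S, ∀ p ∈ P, p * s ∈ K) {h κ Ξ : ℝ} (hh : 0 < h) (hκ : 0 < κ) (hΞ : 0 < Ξ)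
    (hm : ∀ χ : DirichletCharacter ℂ q, ∀ ξ : ℝ, |ξ| ≤ Ξ →
      κ ≤ ‖mult W P (fun p => w p * χ (p : ZMod q) / p) ξ‖) :
    ∑ a ∈ rr q, ∫ x, ‖ggC h S (fun n => c n * ee (n * a / q)) x‖ ^ 2 ≤
      (1 / κ) ^ 2 * (∑ a ∈ rr q,
        ∫ x, ‖ggC h K (fun n => gco W P (fun p => w p / p) S c n * ee (n * a / q)) x‖ ^ 2) +
      (1 / (h * Ξ)) ^ 2 * (∑ a ∈ rr q, ∫ x, ‖bbC h S (fun n => c n * ee (n * a / q)) x‖ ^ 2) := by
  have hq : 0 < q := Nat.pos_of_ne_zero (NeZero.ne q)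
  have hφ : (0 : ℝ) < q.totient := by exact_mod_cast Nat.totient_pos.2 hq
  have e1 := mean_chars (q := q) (triC h) S c (fun c' => ggC_sq_integrable hh S c')
  have e2 := mean_chars (q := q) (triC h) K (gco W P (fun p => w p / p) S c)
    (fun c' => ggC_sq_integrable hh K c')
  have e3 := mean_chars (q := q) (boxC h) S c (fun c' => bbC_sq_integrable h S c')
  have e4 : ∀ χ : DirichletCharacter ℂ q,
      (∫ x, ‖gen (triC h) S (fun n => c n * tau χ n) x‖ ^ 2) ≤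
      (1 / κ) ^ 2 * (∫ x, ‖gen (triC h) K (fun n => gco W P (fun p => w p / p) S c n * tau χ n) x‖ ^ 2) +
      (1 / (h * Ξ)) ^ 2 * (∫ x, ‖gen (boxC h) S (fun n => c n * tau χ n) x‖ ^ 2) := by
    intro χ
    have h1 := planch (W := W) (P := P) (w := fun p => w p * χ (p : ZMod q) / p) (S := S) (K := K)
      (fun n => c n * tau χ n) (fun p hp => (hP p hp).1) hS hSK hPK hh hκ hΞ (hm χ)
    have h2 : gco W P (fun p => w p * χ (p : ZMod q) / p) S (fun n => c n * tau χ n) =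
        fun n => gco W P (fun p => w p / p) S c n * tau χ n := by
      ext k
      unfold gco
      rw [sub_mul, sum_mul]
      congr 1
      · split_ifs
        · ring
        · ring
      · apply sum_congr rfl
        intro p hp
        split_ifs with h3
        · have h4 : tau χ k = χ (p : ZMod q) * tau χ (k / p) := by
            rw [← tau_mul hq χ (hP p hp).2, Nat.mul_div_cancel' h3.1]
          rw [h4]
          ring
        · ring
    rw [h2] at h1
    exact h1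
  have e5 : (q.totient : ℝ) * (∑ a ∈ rr q, ∫ x, ‖ggC h S (fun n => c n * ee (n * a / q)) x‖ ^ 2) ≤
      (q.totient : ℝ) * ((1 / κ) ^ 2 * (∑ a ∈ rr q,
        ∫ x, ‖ggC h K (fun n => gco W P (fun p => w p / p) S c n * ee (n * a / q)) x‖ ^ 2) +
      (1 / (h * Ξ)) ^ 2 * (∑ a ∈ rr q, ∫ x, ‖bbC h S (fun n => c n * ee (n * a / q)) x‖ ^ 2)) := by
    calc _ = ∑ χ : DirichletCharacter ℂ q, ∫ x, ‖gen (triC h) S (fun n => c n * tau χ n) x‖ ^ 2 := e1
      _ ≤ ∑ χ : DirichletCharacter ℂ q, ((1 / κ) ^ 2 *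
          (∫ x, ‖gen (triC h) K (fun n => gco W P (fun p => w p / p) S c n * tau χ n) x‖ ^ 2) +
          (1 / (h * Ξ)) ^ 2 * (∫ x, ‖gen (boxC h) S (fun n => c n * tau χ n) x‖ ^ 2)) :=
        sum_le_sum fun χ _ => e4 χ
      _ = _ := by
        rw [sum_add_distrib, ← mul_sum, ← mul_sum, ← e2, ← e3]
        unfold gen ggC bbC
        ring
  exact le_of_mul_le_mul_left e5 hφ

/-- the multiplier inequality for all fractions -/
theorem energy_mult {F : ℕ} {W : ℝ} {P S K : Finset ℕ} (w c : ℕ → ℂ)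
    (hP : ∀ p ∈ P, p.Prime ∧ F < p) (hS : ∀ s ∈ S, 0 < s) (hSK : ∀ s ∈ S, s ∈ K)
    (hK : ∀ s ∈ K, 0 < s)
    (hPK : ∀ s ∈ S, ∀ p ∈ P, p * s ∈ K) {h κ Ξ : ℝ} (h0 : 0 < h) (h1 : h ≤ 1) (hκ : 0 < κ) (hΞ : 0 < Ξ)
    (hm : ∀ (q : ℕ) [NeZero q], q ≤ F → ∀ χ : DirichletCharacter ℂ q, ∀ ξ : ℝ, |ξ| ≤ Ξ →
      κ ≤ ‖mult W P (fun p => w p * χ (p : ZMod q) / p) ξ‖) :
    ∫ x, EE h F S c x ≤
      (1 / κ) ^ 2 * (∑ n ∈ K, 6 * (15 * n + (1 + (F : ℝ) ^ 2) / h) *
        ‖gco W P (fun p => w p / p) S c n‖ ^ 2) +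
      (1 / (h * Ξ)) ^ 2 * (∑ n ∈ S, 6 * (15 * n + (1 + (F : ℝ) ^ 2) / h) * ‖c n‖ ^ 2) := by
  have e1 : ∫ x, EE h F S c x = ∑ q ∈ Icc 1 F, ∑ a ∈ rr q,
      ∫ x, ‖ggC h S (fun n => c n * ee (n * a / q)) x‖ ^ 2 := by
    unfold EE
    rw [integral_finsetSum _ (fun q _ => integrable_finsetSum _ fun a _ => ggC_sq_integrable h0 S _)]
    apply sum_congr rfl
    intro q _
    rw [integral_finsetSum _ (fun a _ => ggC_sq_integrable h0 S _)]
  rw [e1]
  have e2 : ∑ q ∈ Icc 1 F, ∑ a ∈ rr q, ∫ x, ‖ggC h S (fun n => c n * ee (n * a / q)) x‖ ^ 2 ≤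
      ∑ q ∈ Icc 1 F, ((1 / κ) ^ 2 * (∑ a ∈ rr q,
        ∫ x, ‖ggC h K (fun n => gco W P (fun p => w p / p) S c n * ee (n * a / q)) x‖ ^ 2) +
      (1 / (h * Ξ)) ^ 2 * (∑ a ∈ rr q, ∫ x, ‖bbC h S (fun n => c n * ee (n * a / q)) x‖ ^ 2)) := by
    apply sum_le_sum
    intro q hq
    rw [mem_Icc] at hq
    have : NeZero q := ⟨by omega⟩
    refine per_q w c (fun p hp => ⟨(hP p hp).1.pos, ?_⟩) hS hSK hPK h0 hκ hΞ (hm q hq.2)
    rw [Nat.Prime.coprime_iff_not_dvd (hP p hp).1]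
    intro hd
    have := Nat.le_of_dvd (by omega) hd
    have := (hP p hp).2
    omega
  refine e2.trans ?_
  rw [sum_add_distrib, ← mul_sum, ← mul_sum]
  apply add_le_add
  · exact mul_le_mul_of_nonneg_left (ls_gg F K hK _ h0 h1) (by positivity)
  · exact mul_le_mul_of_nonneg_left (ls_bb F S hS _ h0 h1) (by positivity)

end Pool.Agent.TH823.EL
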